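import Mathlib

/-!
Triangles whose angles are rational: the possible roots of unity `z` such that `C z - B` and
`C z + B` are rational multiples of roots of unity.
-/

set_option autoImplicit false

namespace Pool.Agent.H326.CS

lemma norm_one_of {w : ℂ} {N : ℕ} (hN : 1 ≤ N) (hw : w ^ N = 1) : ‖w‖ = 1 := by
  have h1 := congrArg (fun t : ℂ => ‖t‖) hw
  simp only [norm_pow, norm_one] at h1
  exact (pow_eq_one_iff_of_nonneg (norm_nonneg _) (by omega)).mp h1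

/-- a root of unity with rational real part -/
lemma two_re (w : ℂ) (N : ℕ) (hN : 1 ≤ N) (hw : w ^ N = 1) (r : ℚ) (h : 2 * w.re = (r : ℝ)) :
    ∃ j : ℤ, r = j ∧ -2 ≤ j ∧ j ≤ 2 := by
  have hn := norm_one_of hN hw
  have hw' : (starRingEnd ℂ w) ^ N = 1 := by rw [← map_pow, hw, map_one]
  have hN0 : 0 < N := hN
  have h1 : IsIntegral ℤ w := IsIntegral.of_pow hN0 (by rw [hw]; exact isIntegral_one)
  have h2 : IsIntegral ℤ (starRingEnd ℂ w) :=
    IsIntegral.of_pow hN0 (by rw [hw']; exact isIntegral_one)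
  have h3 : w + starRingEnd ℂ w = algebraMap ℚ ℂ r := by
    rw [Complex.add_conj, h]
    simp
  have h4 : IsIntegral ℤ (algebraMap ℚ ℂ r) := by
    rw [← h3]
    exact h1.add h2
  have h5 : IsIntegral ℤ r :=
    (isIntegral_algebraMap_iff (algebraMap ℚ ℂ).injective).mp h4
  obtain ⟨j, hj⟩ := IsIntegrallyClosed.isIntegral_iff.mp h5
  have hj' : r = j := by rw [← hj]; simp
  refine ⟨j, hj', ?_⟩
  have h6 := Complex.abs_re_le_norm w
  rw [hn, abs_le] at h6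
  rw [hj'] at h
  push_cast at h
  constructor
  · have : (-2 : ℝ) ≤ j := by linarith [h6.1]
    exact_mod_cast this
  · have : (j : ℝ) ≤ 2 := by linarith [h6.2]
    exact_mod_cast this

lemma sq_cases {j : ℤ} (h : -2 ≤ j ∧ j ≤ 2) : j ^ 2 = 0 ∨ j ^ 2 = 1 ∨ j ^ 2 = 4 := by
  have : j = -2 ∨ j = -1 ∨ j = 0 ∨ j = 1 ∨ j = 2 := by omega
  rcases this with rfl | rfl | rfl | rfl | rfl <;> norm_num

lemma arith_one (B C e : ℤ) (hB : 1 ≤ B) (hC : 1 ≤ C) (he : e = 0 ∨ e = 1 ∨ e = 4)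
    (h : (C + 2 * B) ^ 2 = e * (C ^ 2 + B * C + B ^ 2)) : False := by
  have h1 : 0 < B * C := by positivity
  have h2 : 0 < B ^ 2 := by positivity
  have h3 : 0 < C ^ 2 := by positivity
  rcases he with rfl | rfl | rfl
  · have : (C + 2 * B) ^ 2 = C ^ 2 + 4 * (B * C) + 4 * B ^ 2 := by ring
    omega
  · have : (C + 2 * B) ^ 2 = C ^ 2 + 4 * (B * C) + 4 * B ^ 2 := by ring
    omega
  · have : (C + 2 * B) ^ 2 = C ^ 2 + 4 * (B * C) + 4 * B ^ 2 := by ring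
    omega

lemma arith (B C k i j j' : ℤ) (hB : 1 ≤ B) (hC : 1 ≤ C) (hk : k = -1 ∨ k = 0 ∨ k = 1)
    (hi : -2 ≤ i ∧ i ≤ 2) (hj : -2 ≤ j ∧ j ≤ 2) (hj' : -2 ≤ j' ∧ j' ≤ 2)
    (m1 : (C * k - 2 * B) ^ 2 = j ^ 2 * (C ^ 2 - B * C * k + B ^ 2))
    (m2 : (C * k + 2 * B) ^ 2 = j' ^ 2 * (C ^ 2 + B * C * k + B ^ 2))
    (m3 : (2 * C - B * k) ^ 2 = i ^ 2 * (C ^ 2 - B * C * k + B ^ 2)) : False := by
  have h1 : 0 < B ^ 2 := by positivity
  have h2 : 0 < C ^ 2 := by positivity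
  rcases hk with rfl | rfl | rfl
  · apply arith_one B C (j ^ 2) hB hC (sq_cases hj)
    calc (C + 2 * B) ^ 2 = (C * (-1) - 2 * B) ^ 2 := by ring
      _ = _ := by rw [m1]; ring
  · obtain ⟨e, he⟩ : ∃ e, e = i ^ 2 := ⟨_, rfl⟩
    obtain ⟨f, hf⟩ : ∃ f, f = j ^ 2 := ⟨_, rfl⟩
    have hi2 := sq_cases hi
    have hj2 := sq_cases hj
    rw [← he] at hi2 m3
    rw [← hf] at hj2 m1
    have e1 : (C * 0 - 2 * B) ^ 2 = 4 * B ^ 2 := by ring
    have e3 : (2 * C - B * 0) ^ 2 = 4 * C ^ 2 := by ring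
    have e2 : C ^ 2 - B * C * 0 + B ^ 2 = C ^ 2 + B ^ 2 := by ring
    rw [e1, e2] at m1
    rw [e3, e2] at m3
    rcases hi2 with rfl | rfl | rfl <;> rcases hj2 with rfl | rfl | rfl <;> omega
  · apply arith_one B C (j' ^ 2) hB hC (sq_cases hj')
    calc (C + 2 * B) ^ 2 = (C * 1 + 2 * B) ^ 2 := by ring
      _ = _ := by rw [m2]; ring

/-- **the archimedean condition** -/
theorem no_z (z : ℂ) (B C a b c d : ℕ) (hB : 1 ≤ B) (hC : 1 ≤ C) (ha : 1 ≤ a) (hb : 1 ≤ b)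
    (hc : 1 ≤ c) (hd : 1 ≤ d) (hz2 : z ^ 2 ≠ 1) (N0 N1 N2 : ℕ) (h0 : 1 ≤ N0) (h1 : 1 ≤ N1)
    (h2 : 1 ≤ N2) (e0 : z ^ N0 = 1)
    (e1 : ((b : ℂ) * (C * z - B)) ^ N1 = (a : ℂ) ^ N1)
    (e2 : ((d : ℂ) * (C * z + B)) ^ N2 = (c : ℂ) ^ N2) : False := by
  have hBr : (1 : ℝ) ≤ B := by exact_mod_cast hB
  have hCr : (1 : ℝ) ≤ C := by exact_mod_cast hC
  have har : (1 : ℝ) ≤ a := by exact_mod_cast ha
  have hbr : (1 : ℝ) ≤ b := by exact_mod_cast hb
  have hcr : (1 : ℝ) ≤ c := by exact_mod_cast hc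
  have hdr : (1 : ℝ) ≤ d := by exact_mod_cast hd
  have hac : (a : ℂ) ≠ 0 := by exact_mod_cast (by omega : a ≠ 0)
  have hcc : (c : ℂ) ≠ 0 := by exact_mod_cast (by omega : c ≠ 0)
  have hn0 := norm_one_of h0 e0
  have hxy : z.re ^ 2 + z.im ^ 2 = 1 := by
    have := Complex.sq_norm z
    rw [hn0, Complex.normSq_apply] at this
    linarith
  -- the two other roots of unity
  obtain ⟨w1, hw1⟩ : ∃ w, w = (b : ℂ) * (C * z - B) / a := ⟨_, rfl⟩
  obtain ⟨w2, hw2⟩ : ∃ w, w = (d : ℂ) * (C * z + B) / c := ⟨_, rfl⟩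
  have f1 : w1 ^ N1 = 1 := by rw [hw1, div_pow, e1, div_self (pow_ne_zero _ hac)]
  have f2 : w2 ^ N2 = 1 := by rw [hw2, div_pow, e2, div_self (pow_ne_zero _ hcc)]
  obtain ⟨w3, hw3⟩ : ∃ w, w = w1 * starRingEnd ℂ z := ⟨_, rfl⟩
  have f3 : w3 ^ (N1 * N0) = 1 := by
    rw [hw3, mul_pow, pow_mul, f1, one_pow, one_mul, mul_comm N1, pow_mul, ← map_pow, e0, map_one,
      one_pow]
  have k1 := norm_one_of h1 f1
  have k2 := norm_one_of h2 f2
  -- real parts and norms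
  have r1 : w1.re = b * (C * z.re - B) / a := by
    rw [hw1]
    simp [Complex.div_natCast_re]
  have i1 : w1.im = b * (C * z.im) / a := by
    rw [hw1]
    simp [Complex.div_natCast_im]
  have r2 : w2.re = d * (C * z.re + B) / c := by
    rw [hw2]
    simp [Complex.div_natCast_re]
  have i2 : w2.im = d * (C * z.im) / c := by
    rw [hw2]
    simp [Complex.div_natCast_im]
  have r3 : w3.re = b * (C - B * z.re) / a := by
    rw [hw3, Complex.mul_re, Complex.conj_re, Complex.conj_im, r1, i1]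
    have : (b : ℝ) * (C - B * z.re) / a = b * (C * (z.re ^ 2 + z.im ^ 2) - B * z.re) / a := by
      rw [hxy, mul_one]
    rw [this]
    ring
  have n1 : (b : ℝ) ^ 2 * (C ^ 2 - 2 * B * C * z.re + B ^ 2) = a ^ 2 := by
    have := Complex.sq_norm w1
    rw [k1, Complex.normSq_apply, r1, i1] at this
    have ha0 : (a : ℝ) ≠ 0 := by positivity
    field_simp at this
    have h5 : (b : ℝ) ^ 2 * (C ^ 2 - 2 * B * C * z.re + B ^ 2) =
      b ^ 2 * (C ^ 2 * (z.re ^ 2 + z.im ^ 2) - 2 * B * C * z.re + B ^ 2) := by rw [hxy]; ring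
    rw [h5]
    linarith
  have n2 : (d : ℝ) ^ 2 * (C ^ 2 + 2 * B * C * z.re + B ^ 2) = c ^ 2 := by
    have := Complex.sq_norm w2
    rw [k2, Complex.normSq_apply, r2, i2] at this
    have ha0 : (c : ℝ) ≠ 0 := by positivity
    field_simp at this
    have h5 : (d : ℝ) ^ 2 * (C ^ 2 + 2 * B * C * z.re + B ^ 2) =
      d ^ 2 * (C ^ 2 * (z.re ^ 2 + z.im ^ 2) + 2 * B * C * z.re + B ^ 2) := by rw [hxy]; ring
    rw [h5]
    linarith
  -- the first integer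
  obtain ⟨k, hk, hk1, hk2⟩ := two_re z N0 h0 e0
    (((B : ℚ) ^ 2 + C ^ 2 - (a / b) ^ 2) / (B * C)) (by
      push_cast
      have hB0 : (B : ℝ) ≠ 0 := by positivity
      have hC0 : (C : ℝ) ≠ 0 := by positivity
      have hb0 : (b : ℝ) ≠ 0 := by positivity
      field_simp
      linarith)
  have hk' : 2 * z.re = k := by
    have hB0 : (B : ℝ) ≠ 0 := by positivity
    have hC0 : (C : ℝ) ≠ 0 := by positivity
    have hb0 : (b : ℝ) ≠ 0 := by positivity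
    have h5 : (((((B : ℚ) ^ 2 + C ^ 2 - (a / b) ^ 2) / (B * C) : ℚ)) : ℝ) = ((k : ℚ) : ℝ) := by
      rw [hk]
    push_cast at h5
    rw [← h5]
    field_simp
    linarith
  obtain ⟨j, hj, hj1, hj2⟩ := two_re w1 N1 h1 f1 ((b : ℚ) * (C * k - 2 * B) / a) (by
    push_cast
    rw [r1, ← hk']
    ring)
  obtain ⟨j', hj', hj1', hj2'⟩ := two_re w2 N2 h2 f2 ((d : ℚ) * (C * k + 2 * B) / c) (by
    push_cast
    rw [r2, ← hk']
    ring)
  obtain ⟨i, hi, hi1, hi2⟩ := two_re w3 (N1 * N0) (Nat.mul_pos h1 h0) f3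
    ((b : ℚ) * (2 * C - B * k) / a) (by
    push_cast
    rw [r3, ← hk']
    ring)
  have hB0 : (B : ℚ) ≠ 0 := by positivity
  have hC0 : (C : ℚ) ≠ 0 := by positivity
  have hb0 : (b : ℚ) ≠ 0 := by exact_mod_cast (by omega : b ≠ 0)
  have ha0 : (a : ℚ) ≠ 0 := by exact_mod_cast (by omega : a ≠ 0)
  have hd0 : (d : ℚ) ≠ 0 := by exact_mod_cast (by omega : d ≠ 0)
  have hc0 : (c : ℚ) ≠ 0 := by exact_mod_cast (by omega : c ≠ 0)
  have n1' : (b : ℚ) ^ 2 * (C ^ 2 - B * C * k + B ^ 2) = a ^ 2 := by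
    have : (b : ℝ) ^ 2 * (C ^ 2 - B * C * k + B ^ 2) = a ^ 2 := by
      rw [← n1, ← hk']
      ring
    exact_mod_cast this
  have n2' : (d : ℚ) ^ 2 * (C ^ 2 + B * C * k + B ^ 2) = c ^ 2 := by
    have : (d : ℝ) ^ 2 * (C ^ 2 + B * C * k + B ^ 2) = c ^ 2 := by
      rw [← n2, ← hk']
      ring
    exact_mod_cast this
  rw [div_eq_iff ha0] at hj hi
  rw [div_eq_iff hc0] at hj'
  have m1 : ((C : ℤ) * k - 2 * B) ^ 2 = j ^ 2 * (C ^ 2 - B * C * k + B ^ 2) := by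
    have h6 : (b : ℚ) ^ 2 * ((C : ℚ) * k - 2 * B) ^ 2 =
        b ^ 2 * ((j : ℚ) ^ 2 * (C ^ 2 - B * C * k + B ^ 2)) := by
      have h7 : (b : ℚ) ^ 2 * ((C : ℚ) * k - 2 * B) ^ 2 = (b * (C * k - 2 * B)) ^ 2 := by ring
      rw [h7, hj, mul_pow, ← n1']
      ring
    exact_mod_cast mul_left_cancel₀ (pow_ne_zero 2 hb0) h6
  have m3 : (2 * (C : ℤ) - B * k) ^ 2 = i ^ 2 * (C ^ 2 - B * C * k + B ^ 2) := by
    have h6 : (b : ℚ) ^ 2 * (2 * (C : ℚ) - B * k) ^ 2 =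
        b ^ 2 * ((i : ℚ) ^ 2 * (C ^ 2 - B * C * k + B ^ 2)) := by
      have h7 : (b : ℚ) ^ 2 * (2 * (C : ℚ) - B * k) ^ 2 = (b * (2 * C - B * k)) ^ 2 := by ring
      rw [h7, hi, mul_pow, ← n1']
      ring
    exact_mod_cast mul_left_cancel₀ (pow_ne_zero 2 hb0) h6
  have m2 : ((C : ℤ) * k + 2 * B) ^ 2 = j' ^ 2 * (C ^ 2 + B * C * k + B ^ 2) := by
    have h6 : (d : ℚ) ^ 2 * ((C : ℚ) * k + 2 * B) ^ 2 =
        d ^ 2 * ((j' : ℚ) ^ 2 * (C ^ 2 + B * C * k + B ^ 2)) := by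
      have h7 : (d : ℚ) ^ 2 * ((C : ℚ) * k + 2 * B) ^ 2 = (d * (C * k + 2 * B)) ^ 2 := by ring
      rw [h7, hj', mul_pow, ← n2']
      ring
    exact_mod_cast mul_left_cancel₀ (pow_ne_zero 2 hd0) h6
  have hBz : (1 : ℤ) ≤ B := by exact_mod_cast hB
  have hCz : (1 : ℤ) ≤ C := by exact_mod_cast hC
  have hkc : k = -2 ∨ k = 2 := by
    by_contra hcon
    push Not at hcon
    exact arith B C k i j j' hBz hCz (by omega) ⟨hi1, hi2⟩ ⟨hj1, hj2⟩ ⟨hj1', hj2'⟩ m1 m2 m3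
  have hpm : z.re ^ 2 = 1 → False := by
    intro h
    have him : z.im = 0 := by
      have : z.im ^ 2 = 0 := by linarith
      exact pow_eq_zero_iff (by norm_num) |>.mp this
    apply hz2
    apply Complex.ext
    · rw [pow_two, Complex.mul_re, him, Complex.one_re]
      linarith [pow_two z.re]
    · rw [pow_two, Complex.mul_im, him, Complex.one_im]
      ring
  rcases hkc with rfl | rfl
  · apply hpm
    push_cast at hk'
    have : z.re = -1 := by linarith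
    rw [this]
    norm_num
  · apply hpm
    push_cast at hk'
    have : z.re = 1 := by linarith
    rw [this]
    norm_num

end Pool.Agent.H326.CS
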