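import Pool.Agent.H573.AHB.UnJ
import Pool.Agent.H573.AHB.TuC
import Pool.Agent.H326.CS.A

/-!
The bad auxiliary primes for `A x^m + B^2 y^n = C^2 z^k`, with explicit constants.
-/

set_option autoImplicit false

namespace Pool.Agent.H326.CS

open Polynomial Pool.Agent.H573.AHB

/-- the three simultaneous conditions; `v = (B, C, a, b, c, d)` -/
def T3 (v : Fin 6 → ℕ) (q n : ℕ) : Prop :=
  ∃ t : ZMod q, t ^ 2 ≠ 1 ∧ t ^ n = 1 ∧
    ((v 3 : ZMod q) * ((v 1 : ZMod q) * t - (v 0 : ZMod q))) ^ n = (v 2 : ZMod q) ^ n ∧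
    ((v 5 : ZMod q) * ((v 1 : ZMod q) * t + (v 0 : ZMod q))) ^ n = (v 4 : ZMod q) ^ n

noncomputable def ff (v : Fin 6 → ℕ) : Fin 3 → ℤ[X] :=
  ![X, C ((v 3 : ℤ)) * (C ((v 1 : ℤ)) * X - C ((v 0 : ℤ))),
    C ((v 5 : ℤ)) * (C ((v 1 : ℤ)) * X + C ((v 0 : ℤ)))]

def cc3 (v : Fin 6 → ℕ) : Fin 3 → ℤ := ![1, (v 2 : ℤ), (v 4 : ℤ)]

lemma fin3' (i : Fin 3) : i = 0 ∨ i = 1 ∨ i = 2 := by
  fin_cases i <;> simp

section
variable {R : Type*} [CommRing R] (t : R) (v : Fin 6 → ℕ)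

lemma ff_0 : aeval t (ff v 0) = t := by simp [ff]
lemma ff_1 : aeval t (ff v 1) = (v 3 : R) * ((v 1 : R) * t - (v 0 : R)) := by simp [ff]
lemma ff_2 : aeval t (ff v 2) = (v 5 : R) * ((v 1 : R) * t + (v 0 : R)) := by simp [ff]

end

lemma c_0 (v : Fin 6 → ℕ) : cc3 v 0 = 1 := rfl
lemma c_1 (v : Fin 6 → ℕ) : cc3 v 1 = (v 2 : ℤ) := rfl
lemma c_2 (v : Fin 6 → ℕ) : cc3 v 2 = (v 4 : ℤ) := rfl

lemma nat_ne {q H x : ℕ} (hq : H < q) (h1 : 1 ≤ x) (h2 : x ≤ H) : ((x : ℕ) : ZMod q) ≠ 0 := by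
  intro h
  rw [ZMod.natCast_eq_zero_iff] at h
  have := Nat.le_of_dvd (by omega) h
  omega

lemma L1_X : L1 X = 1 := by
  rw [← monomial_one_one_eq_X, L1_monomial]
  simp

lemma L1_lin (b c d H : ℕ) (hb : b ≤ H) (hc : c ≤ H) (hd : d ≤ H) (P : ℤ[X])
    (hP : P = C (b : ℤ) * (C (c : ℤ) * X - C (d : ℤ)) ∨
      P = C (b : ℤ) * (C (c : ℤ) * X + C (d : ℤ))) : L1 P ≤ 2 * (H : ℝ) ^ 2 := by
  have hb' : (b : ℝ) ≤ H := by exact_mod_cast hb
  have hc' : (c : ℝ) ≤ H := by exact_mod_cast hc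
  have hd' : (d : ℝ) ≤ H := by exact_mod_cast hd
  have e1 : L1 (C (c : ℤ) * X) ≤ H := by
    have := L1_C_mul (c : ℤ) X
    rw [L1_X, mul_one] at this
    have h2 : |((c : ℤ) : ℝ)| = c := by simp
    rw [h2] at this
    linarith
  have e2 : L1 (C (d : ℤ)) ≤ H := by
    rw [L1_C]
    have h2 : |((d : ℤ) : ℝ)| = d := by simp
    rw [h2]
    exact hd'
  have hH : (0 : ℝ) ≤ H := Nat.cast_nonneg H
  have key : ∀ F : ℤ[X], L1 F ≤ H + H → L1 (C (b : ℤ) * F) ≤ 2 * (H : ℝ) ^ 2 := by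
    intro F hF
    have h1 := L1_C_mul (b : ℤ) F
    have h2 : |((b : ℤ) : ℝ)| = b := by simp
    rw [h2] at h1
    calc L1 (C (b : ℤ) * F) ≤ b * L1 F := h1
      _ ≤ H * (H + H) := mul_le_mul hb' hF (L1_nonneg _) hH
      _ = _ := by ring
  rcases hP with rfl | rfl
  · exact key _ ((L1_sub _ _).trans (add_le_add e1 e2))
  · exact key _ ((L1_add _ _).trans (add_le_add e1 e2))

lemma Ac_ff (v : Fin 6 → ℕ) (H : ℕ) (hH : 1 ≤ H) (hv : ∀ i, v i ≤ H) :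
    Ac (ff v) (cc3 v) ≤ 11 * (H : ℝ) ^ 6 := by
  have hHr : (1 : ℝ) ≤ H := by exact_mod_cast hH
  have hH2 : (1 : ℝ) ≤ (H : ℝ) ^ 2 := one_le_pow₀ hHr
  have hH6 : (1 : ℝ) ≤ (H : ℝ) ^ 6 := one_le_pow₀ hHr
  have e0 : max 1 (L1 (ff v 0)) = 1 := by
    have : ff v 0 = X := rfl
    rw [this, L1_X, max_self]
  have e1 : max 1 (L1 (ff v 1)) ≤ 2 * (H : ℝ) ^ 2 :=
    max_le (by linarith) (L1_lin (v 3) (v 1) (v 0) H (hv _) (hv _) (hv _) _ (Or.inl rfl))
  have e2 : max 1 (L1 (ff v 2)) ≤ 2 * (H : ℝ) ^ 2 :=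
    max_le (by linarith) (L1_lin (v 5) (v 1) (v 0) H (hv _) (hv _) (hv _) _ (Or.inr rfl))
  have g0 : max 1 (L1 (C (cc3 v 0))) = 1 := by
    rw [c_0, L1_C]
    simp
  have g1 : max 1 (L1 (C (cc3 v 1))) ≤ H := by
    rw [c_1, L1_C]
    apply max_le hHr
    have h2 : |((v 2 : ℤ) : ℝ)| = v 2 := by simp
    rw [h2]
    exact_mod_cast hv 2
  have g2 : max 1 (L1 (C (cc3 v 2))) ≤ H := by
    rw [c_2, L1_C]
    apply max_le hHr
    have h2 : |((v 4 : ℤ) : ℝ)| = v 4 := by simp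
    rw [h2]
    exact_mod_cast hv 4
  have hBc : Bc (ff v) (cc3 v) ≤ 4 * (H : ℝ) ^ 6 := by
    unfold Bc
    rw [Fin.prod_univ_three, e0, g0]
    have p1 : (0 : ℝ) ≤ max 1 (L1 (ff v 1)) := zero_le_one.trans (le_max_left _ _)
    have p2 : (0 : ℝ) ≤ max 1 (L1 (ff v 2)) := zero_le_one.trans (le_max_left _ _)
    have p3 : (0 : ℝ) ≤ max 1 (L1 (C (cc3 v 1))) := zero_le_one.trans (le_max_left _ _)
    have p4 : (0 : ℝ) ≤ max 1 (L1 (C (cc3 v 2))) := zero_le_one.trans (le_max_left _ _)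
    have m1 := mul_le_mul e1 g1 p3 (by positivity)
    have m2 := mul_le_mul e2 g2 p4 (by positivity)
    calc (1 : ℝ) * 1 * (max 1 (L1 (ff v 1)) * max 1 (L1 (C (cc3 v 1)))) *
          (max 1 (L1 (ff v 2)) * max 1 (L1 (C (cc3 v 2))))
        = (max 1 (L1 (ff v 1)) * max 1 (L1 (C (cc3 v 1)))) *
          (max 1 (L1 (ff v 2)) * max 1 (L1 (C (cc3 v 2)))) := by ring
      _ ≤ (2 * (H : ℝ) ^ 2 * H) * (2 * (H : ℝ) ^ 2 * H) :=
          mul_le_mul m1 m2 (mul_nonneg p2 p4) (by positivity)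
      _ = _ := by ring
  have hB1 : 1 ≤ Bc (ff v) (cc3 v) := one_le_Bc _ _
  have hdeg : ∑ i, (ff v i).natDegree ≤ 3 := by
    have d0 : (ff v 0).natDegree ≤ 1 := by
      have : ff v 0 = X := rfl
      rw [this]
      exact natDegree_X_le
    have dl : ∀ c d : ℤ, (C c * X - C d : ℤ[X]).natDegree ≤ 1 := by
      intro c d
      refine (natDegree_sub_le _ _).trans (max_le ?_ ?_)
      · exact (natDegree_C_mul_le _ _).trans natDegree_X_le
      · rw [natDegree_C]; omega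
    have dl' : ∀ c d : ℤ, (C c * X + C d : ℤ[X]).natDegree ≤ 1 := by
      intro c d
      refine (natDegree_add_le _ _).trans (max_le ?_ ?_)
      · exact (natDegree_C_mul_le _ _).trans natDegree_X_le
      · rw [natDegree_C]; omega
    have d1 : (ff v 1).natDegree ≤ 1 := (natDegree_C_mul_le _ _).trans (dl _ _)
    have d2 : (ff v 2).natDegree ≤ 1 := (natDegree_C_mul_le _ _).trans (dl' _ _)
    rw [Fin.sum_univ_three]
    omega
  have hdeg' : ((∑ i, (ff v i).natDegree : ℕ) : ℝ) ≤ 3 := by exact_mod_cast hdeg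
  have hlog : Real.log (2 * Bc (ff v) (cc3 v)) ≤ 8 * (H : ℝ) ^ 6 := by
    have h1 : Real.log (2 * Bc (ff v) (cc3 v)) ≤ 2 * Bc (ff v) (cc3 v) := by
      have := Real.log_le_sub_one_of_pos (show (0 : ℝ) < 2 * Bc (ff v) (cc3 v) by linarith)
      linarith
    linarith
  unfold Ac
  linarith

theorem ucount_T3 (v : Fin 6 → ℕ) (H : ℕ) (hH : 1 ≤ H) (hv1 : ∀ i, 1 ≤ v i) (hv : ∀ i, v i ≤ H) :
    UCount (T3 v) (2 ^ 24 * (H : ℝ) ^ 12) (2 * H) := by
  have h := count_primesE (r := 3) (by norm_num) (ff v) (cc3 v) (fun i => by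
      rcases fin3' i with rfl | rfl | rfl
      · rw [c_0]; norm_num
      · rw [c_1]; have := hv1 2; omega
      · rw [c_2]; have := hv1 4; omega)
    (X ^ 2 - 1) (2 * H) (by
      intro q hq hq2 i
      have hF : Fact q.Prime := ⟨hq⟩
      rcases fin3' i with rfl | rfl | rfl
      · rw [c_0, Int.cast_one]; exact one_ne_zero
      · rw [c_1, Int.cast_natCast]; exact nat_ne (by omega) (hv1 _) (hv _)
      · rw [c_2, Int.cast_natCast]; exact nat_ne (by omega) (hv1 _) (hv _)) (by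
      intro q hF hq2 i
      have n0 : (v 0 : ZMod q) ≠ 0 := nat_ne (H := H) (by omega) (hv1 _) (hv _)
      have n1 : (v 1 : ZMod q) ≠ 0 := nat_ne (H := H) (by omega) (hv1 _) (hv _)
      have n3 : (v 3 : ZMod q) ≠ 0 := nat_ne (H := H) (by omega) (hv1 _) (hv _)
      have n5 : (v 5 : ZMod q) ≠ 0 := nat_ne (H := H) (by omega) (hv1 _) (hv _)
      have h2 : (2 : ZMod q) ≠ 0 := by
        have := nat_ne (q := q) (H := 2 * H) (x := 2) hq2 (by norm_num) (by omega)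
        exact_mod_cast this
      rcases fin3' i with rfl | rfl | rfl
      · refine ⟨ZMod q, inferInstance, inferInstance, 0, ff_0 0 v, ?_⟩
        intro j hj
        rcases fin3' j with rfl | rfl | rfl
        · exact absurd rfl hj
        · rw [ff_1, mul_zero, zero_sub]; exact mul_ne_zero n3 (neg_ne_zero.mpr n0)
        · rw [ff_2, mul_zero, zero_add]; exact mul_ne_zero n5 n0
      · refine ⟨ZMod q, inferInstance, inferInstance, (v 0 : ZMod q) / (v 1 : ZMod q), ?_, ?_⟩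
        · rw [ff_1, mul_div_cancel₀ _ n1, sub_self, mul_zero]
        intro j hj
        rcases fin3' j with rfl | rfl | rfl
        · rw [ff_0]; exact div_ne_zero n0 n1
        · exact absurd rfl hj
        · rw [ff_2, mul_div_cancel₀ _ n1, ← two_mul]
          exact mul_ne_zero n5 (mul_ne_zero h2 n0)
      · refine ⟨ZMod q, inferInstance, inferInstance, -(v 0 : ZMod q) / (v 1 : ZMod q), ?_, ?_⟩
        · rw [ff_2, mul_div_cancel₀ _ n1, neg_add_cancel, mul_zero]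
        intro j hj
        rcases fin3' j with rfl | rfl | rfl
        · rw [ff_0]; exact div_ne_zero (neg_ne_zero.mpr n0) n1
        · rw [ff_1, mul_div_cancel₀ _ n1]
          have e : -(v 0 : ZMod q) - v 0 = -(2 * v 0) := by ring
          rw [e]
          exact mul_ne_zero n3 (neg_ne_zero.mpr (mul_ne_zero h2 n0))
        · exact absurd rfl hj) (by
      intro z hz
      by_contra hcon
      push Not at hcon
      obtain ⟨N0, a0, b0⟩ := hcon 0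
      obtain ⟨N1, a1, b1⟩ := hcon 1
      obtain ⟨N2, a2, b2⟩ := hcon 2
      rw [c_0, Int.cast_one, one_pow, ff_0] at b0
      rw [c_1, Int.cast_natCast, ff_1] at b1
      rw [c_2, Int.cast_natCast, ff_2] at b2
      refine no_z z (v 0) (v 1) (v 2) (v 3) (v 4) (v 5) (hv1 _) (hv1 _) (hv1 _) (hv1 _) (hv1 _)
        (hv1 _) ?_ N0 N1 N2 a0 a1 a2 b0 b1 b2
      intro h2
      apply hz
      rw [map_sub, map_pow, aeval_X, map_one, h2, sub_self])
  have hAc := Ac_ff v H hH hv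
  have hAc0 := Ac_nonneg (ff v) (cc3 v)
  have hl2 : (1 : ℝ) / 2 ≤ Real.log 2 := by
    have := Real.log_two_gt_d9
    linarith
  have hl0 : 0 < Real.log 2 := by linarith
  have hHr : (1 : ℝ) ≤ H := by exact_mod_cast hH
  have hU : UCount (T3 v) ((2 ^ (3 + 1) * Ac (ff v) (cc3 v) * (((3 : ℕ) : ℝ) ^ (3 - 1)) /
      Real.log 2) * Ac (ff v) (cc3 v) * (2 * ((3 : ℕ) : ℝ) * 3 ^ (3 - 1))) (2 * H) := by
    intro K R hR hRK hKR Q hQ
    exact h K R hR hRK hKR Q (by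
      intro q hq
      obtain ⟨g1, g2, n, g3, g4, _, t, ht0, ht1, ht2, ht3⟩ := hQ q hq
      have hF : Fact q.Prime := ⟨g1⟩
      refine ⟨g1, g2, t, n, g3, g4, ?_, ?_⟩
      · rw [map_sub, map_pow, aeval_X, map_one]
        exact sub_ne_zero.mpr ht0
      · intro i
        rcases fin3' i with rfl | rfl | rfl
        · rw [ff_0, c_0, Int.cast_one, one_pow]; exact ht1
        · rw [ff_1, c_1, Int.cast_natCast]; exact ht2
        · rw [ff_2, c_2, Int.cast_natCast]; exact ht3)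
  refine hU.weak ?_ le_rfl
  have e1 : 2 ^ (3 + 1) * Ac (ff v) (cc3 v) * (((3 : ℕ) : ℝ) ^ (3 - 1)) / Real.log 2 ≤
      2 ^ 4 * (11 * (H : ℝ) ^ 6) * 9 * 2 := by
    rw [div_le_iff₀ hl0]
    have h3 : (((3 : ℕ) : ℝ) ^ (3 - 1)) = 9 := by norm_num
    rw [h3]
    have h4 : (2 : ℝ) ^ (3 + 1) * Ac (ff v) (cc3 v) * 9 ≤ 2 ^ 4 * (11 * (H : ℝ) ^ 6) * 9 := by
      have : (2 : ℝ) ^ (3 + 1) = 2 ^ 4 := by norm_num
      rw [this]
      nlinarith
    have h5 : (0 : ℝ) ≤ 2 ^ 4 * (11 * (H : ℝ) ^ 6) * 9 := by positivity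
    nlinarith
  have e2 : (0 : ℝ) ≤ 2 ^ 4 * (11 * (H : ℝ) ^ 6) * 9 * 2 := by positivity
  calc _ ≤ (2 ^ 4 * (11 * (H : ℝ) ^ 6) * 9 * 2) * (11 * (H : ℝ) ^ 6) * (2 * ((3 : ℕ) : ℝ) * 3 ^ (3 - 1)) := by
        apply mul_le_mul_of_nonneg_right _ (by positivity)
        exact mul_le_mul e1 hAc hAc0 e2
    _ = (2 ^ 4 * 11 * 9 * 2 * 11 * (2 * 3 * 9)) * (H : ℝ) ^ 12 := by
        push_cast
        ring
    _ ≤ 2 ^ 24 * (H : ℝ) ^ 12 := by
        apply mul_le_mul_of_nonneg_right _ (by positivity)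
        norm_num

end Pool.Agent.H326.CS
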