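import Pool.Agent.H326.CS.B

/-!
The bad auxiliary primes are rare, uniformly in the coefficients.
-/

set_option autoImplicit false

namespace Pool.Agent.H326.CS

open Finset Pool.Agent.H573.AHB

def WN (M q n : ℕ) : Prop :=
  ∃ i ∈ (Icc 1 M) ×ˢ (Icc 1 M), i.1 ≠ i.2 ∧ (i.1 : ZMod q) ^ n = (i.2 : ZMod q) ^ n

def WT (M q n : ℕ) : Prop :=
  ∃ v ∈ Fintype.piFinset (fun _ : Fin 6 => Icc 1 (4 * M ^ 5)), T3 v q n

/-- the bad pairs -/
def BD (M q n : ℕ) : Prop := WN M q n ∨ WT M q n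

lemma usparse_WN : USparse WN := by
  refine ⟨10, fun M => ?_⟩
  have hM0 : (0 : ℝ) ≤ M := Nat.cast_nonneg M
  have hl2 : (1 : ℝ) / 2 ≤ Real.log 2 := by
    have := Real.log_two_gt_d9
    linarith
  have hl0 : 0 < Real.log 2 := by linarith
  have h := UCount.exists_mem ((Icc 1 M) ×ˢ (Icc 1 M))
    (fun i q n => i.1 ≠ i.2 ∧ (i.1 : ZMod q) ^ n = (i.2 : ZMod q) ^ n) (4 * (M : ℝ))
    ((M + 2) ^ 10) (by
      rintro ⟨a, b⟩ hi
      rw [mem_product, mem_Icc, mem_Icc] at hi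
      obtain ⟨⟨ha1, ha2⟩, hb1, hb2⟩ := hi
      apply UCount.and_left (by positivity)
      intro hne
      refine (ucount_num a b ha1 hb1 hne _).weak ?_ le_rfl
      rw [div_le_iff₀ hl0]
      have ha2' : (a : ℝ) ≤ (M : ℝ) := by exact_mod_cast ha2
      have hb2' : (b : ℝ) ≤ (M : ℝ) := by exact_mod_cast hb2
      have ha1' : (1 : ℝ) ≤ a := by exact_mod_cast ha1
      have hb1' : (1 : ℝ) ≤ b := by exact_mod_cast hb1
      have h1 := Real.log_le_sub_one_of_pos (show (0 : ℝ) < (a : ℝ) + b by linarith)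
      nlinarith)
  refine h.weak ?_ le_rfl
  rw [card_product, Nat.card_Icc, Nat.add_sub_cancel]
  push_cast
  have h1 : (M : ℝ) ^ 3 ≤ ((M : ℝ) + 2) ^ 3 := pow_le_pow_left₀ hM0 (by linarith) 3
  have h2 : (4 : ℝ) ≤ ((M : ℝ) + 2) ^ 7 := by
    calc (4 : ℝ) ≤ 2 ^ 7 := by norm_num
      _ ≤ _ := pow_le_pow_left₀ (by norm_num) (by linarith) 7
  calc (M : ℝ) * (M : ℝ) * (4 * (M : ℝ)) = M ^ 3 * 4 := by ring
    _ ≤ ((M : ℝ) + 2) ^ 3 * ((M : ℝ) + 2) ^ 7 := mul_le_mul h1 h2 (by norm_num) (by positivity)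
    _ = ((M : ℝ) + 2) ^ (3 + 7) := (pow_add _ _ _).symm

lemma usparse_WT : USparse WT := by
  refine ⟨150, fun M => ?_⟩
  have hM0 : (0 : ℝ) ≤ M := Nat.cast_nonneg M
  have h := UCount.exists_mem (Fintype.piFinset (fun _ : Fin 6 => Icc 1 (4 * M ^ 5)))
    (fun v q n => T3 v q n) (2 ^ 24 * ((4 * M ^ 5 : ℕ) : ℝ) ^ 12) (2 * (4 * M ^ 5)) (by
      intro v hv
      rw [Fintype.mem_piFinset] at hv
      have h0 := mem_Icc.mp (hv 0)
      exact ucount_T3 v (4 * M ^ 5) (by omega) (fun i => (mem_Icc.mp (hv i)).1)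
        (fun i => (mem_Icc.mp (hv i)).2))
  refine h.weak ?_ ?_
  · rw [Fintype.card_piFinset, Finset.prod_const, Nat.card_Icc, Nat.add_sub_cancel,
      Finset.card_univ, Fintype.card_fin]
    push_cast
    have h1 : (M : ℝ) ^ 90 ≤ ((M : ℝ) + 2) ^ 90 := pow_le_pow_left₀ hM0 (by linarith) 90
    have h2 : (2 : ℝ) ^ 60 ≤ ((M : ℝ) + 2) ^ 60 := pow_le_pow_left₀ (by norm_num) (by linarith) 60
    calc (4 * (M : ℝ) ^ 5) ^ 6 * (2 ^ 24 * (4 * (M : ℝ) ^ 5) ^ 12) = M ^ 90 * 2 ^ 60 := by ring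
      _ ≤ ((M : ℝ) + 2) ^ 90 * ((M : ℝ) + 2) ^ 60 := mul_le_mul h1 h2 (by norm_num) (by positivity)
      _ = ((M : ℝ) + 2) ^ (90 + 60) := (pow_add _ _ _).symm
  · have h1 : M ^ 5 ≤ (M + 2) ^ 5 := Nat.pow_le_pow_left (by omega) 5
    have h2 : 8 ≤ (M + 2) ^ 3 := by
      calc 8 = 2 ^ 3 := by norm_num
        _ ≤ _ := Nat.pow_le_pow_left (by omega) 3
    calc 2 * (4 * M ^ 5) = 8 * M ^ 5 := by ring
      _ ≤ (M + 2) ^ 3 * (M + 2) ^ 5 := Nat.mul_le_mul h2 h1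
      _ = (M + 2) ^ (3 + 5) := (pow_add _ _ _).symm
      _ ≤ (M + 2) ^ 150 := Nat.pow_le_pow_right (by omega) (by norm_num)

theorem usparse_BD : USparse BD := usparse_WN.or usparse_WT

end Pool.Agent.H326.CS
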