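import Mathlib

/-!
Splitting a product that is almost a power into almost powers.
-/

set_option autoImplicit false

namespace Pool.Agent.H326.CS

/-- the part of `n` composed of primes of `d` -/
lemma part (d : ℕ) (hd : d ≠ 0) : ∀ n : ℕ, n ≠ 0 →
    ∃ n1 n2 k : ℕ, n = n1 * n2 ∧ n1 ∣ d ^ k ∧ Nat.Coprime n2 d := by
  intro n
  induction n using Nat.strong_induction_on with
  | _ n ih =>
    intro hn
    by_cases hc : Nat.Coprime n d
    · exact ⟨1, n, 0, (one_mul n).symm, one_dvd _, hc⟩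
    · obtain ⟨g, hg⟩ : ∃ g, g = Nat.gcd n d := ⟨_, rfl⟩
      have hg1 : g ≠ 1 := by rw [hg]; exact hc
      have hg0 : g ≠ 0 := by
        rw [hg]
        intro h
        exact hn (Nat.eq_zero_of_gcd_eq_zero_left h)
      obtain ⟨n', hn'⟩ : g ∣ n := by rw [hg]; exact Nat.gcd_dvd_left _ _
      have hgd : g ∣ d := by rw [hg]; exact Nat.gcd_dvd_right _ _
      have hn'0 : n' ≠ 0 := by
        rintro rfl
        exact hn (by rw [hn', mul_zero])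
      have hlt : n' < n := by
        rw [hn']
        have h1 : 1 < g := by omega
        have h2 : 0 < n' := by omega
        nlinarith
      obtain ⟨n1, n2, k, h1, h2, h3⟩ := ih n' hlt hn'0
      exact ⟨g * n1, n2, k + 1, by rw [hn', h1, mul_assoc], by
        rw [pow_succ, mul_comm]
        exact mul_dvd_mul h2 hgd, h3⟩

/-- **splitting** -/
theorem split (e d1 d2 A x s : ℕ) (he : e ≠ 0) (h1 : d1 ≠ 0) (hA : A ≠ 0) (hx : x ≠ 0)
    (hco : Nat.Coprime d1 d2) (h : e * (d1 * d2) = A * x ^ s) :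
    ∃ e1 e2 A1 A2 x1 x2 : ℕ, e = e1 * e2 ∧ A = A1 * A2 ∧ x = x1 * x2 ∧
      e1 * d1 = A1 * x1 ^ s ∧ e2 * d2 = A2 * x2 ^ s := by
  obtain ⟨e1, e2, k1, a1, a2, a3⟩ := part d1 h1 e he
  obtain ⟨A1, A2, k2, b1, b2, b3⟩ := part d1 h1 A hA
  obtain ⟨x1, x2, k3, c1, c2, c3⟩ := part d1 h1 x hx
  have key : (e1 * d1) * (e2 * d2) = (A1 * x1 ^ s) * (A2 * x2 ^ s) := by
    calc (e1 * d1) * (e2 * d2) = (e1 * e2) * (d1 * d2) := by ring
      _ = (A1 * A2) * (x1 * x2) ^ s := by rw [← a1, ← b1, ← c1, h]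
      _ = _ := by rw [mul_pow]; ring
  have hcopL : ∀ m k n : ℕ, m ∣ d1 ^ k → Nat.Coprime n d1 → Nat.Coprime m n := by
    intro m k n hm hn
    exact Nat.Coprime.coprime_dvd_left hm (Nat.Coprime.pow_left k hn.symm)
  have l1 : e1 * d1 ∣ d1 ^ (k1 + 1) := by
    rw [pow_succ]
    exact mul_dvd_mul_right a2 _
  have l2 : A1 * x1 ^ s ∣ d1 ^ (k2 + k3 * s) := by
    rw [pow_add, pow_mul]
    exact mul_dvd_mul b2 (pow_dvd_pow_of_dvd c2 s)
  have r1 : Nat.Coprime (e2 * d2) d1 := Nat.Coprime.mul_left a3 hco.symm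
  have r2 : Nat.Coprime (A2 * x2 ^ s) d1 := Nat.Coprime.mul_left b3 (Nat.Coprime.pow_left s c3)
  have dv1 : e1 * d1 ∣ A1 * x1 ^ s := by
    apply (hcopL _ _ _ l1 r2).dvd_of_dvd_mul_right
    rw [← key]
    exact Dvd.intro _ rfl
  have dv2 : A1 * x1 ^ s ∣ e1 * d1 := by
    apply (hcopL _ _ _ l2 r1).dvd_of_dvd_mul_right
    rw [key]
    exact Dvd.intro _ rfl
  have eq1 := Nat.dvd_antisymm dv1 dv2
  refine ⟨e1, e2, A1, A2, x1, x2, a1, b1, c1, eq1, ?_⟩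
  rw [eq1] at key
  have hpos : 0 < A1 * x1 ^ s := by
    apply Nat.pos_of_ne_zero
    intro h0
    rw [b1, c1] at h
    have hA1 : A1 ≠ 0 := by rintro rfl; exact hA (by rw [b1, zero_mul])
    have hx1 : x1 ≠ 0 := by rintro rfl; exact hx (by rw [c1, zero_mul])
    exact mul_ne_zero hA1 (pow_ne_zero s hx1) h0
  exact Nat.eq_of_mul_eq_mul_left hpos key

/-- **two factors with a small greatest common divisor** -/
theorem split_int (D1 D2 x : ℤ) (A r g s : ℕ) (hA : A ≠ 0) (hr : r ≠ 0) (hx : x ≠ 0)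
    (h1 : D1 ≠ 0) (hg : Int.gcd D1 D2 = g) (h : r * (D1 * D2) = A * x ^ s) :
    ∃ a b c d u v : ℕ, 1 ≤ a ∧ 1 ≤ b ∧ 1 ≤ c ∧ 1 ≤ d ∧ a ≤ g * A ∧ b ≤ r * g ^ 2 ∧ c ≤ g * A ∧
      d ≤ r * g ^ 2 ∧ b * D1.natAbs = a * u ^ s ∧ d * D2.natAbs = c * v ^ s ∧ u ∣ x.natAbs ∧
      v ∣ x.natAbs := by
  have hg0 : g ≠ 0 := by
    rw [← hg]
    intro h0
    exact h1 (Int.gcd_eq_zero_iff.mp h0).1
  have hgn : Nat.gcd D1.natAbs D2.natAbs = g := hg
  obtain ⟨d1, hd1⟩ : g ∣ D1.natAbs := by rw [← hgn]; exact Nat.gcd_dvd_left _ _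
  obtain ⟨d2, hd2⟩ : g ∣ D2.natAbs := by rw [← hgn]; exact Nat.gcd_dvd_right _ _
  have hco : Nat.Coprime d1 d2 := by
    rw [hd1, hd2, Nat.gcd_mul_left] at hgn
    have : g * Nat.gcd d1 d2 = g * 1 := by rw [hgn, mul_one]
    exact Nat.eq_of_mul_eq_mul_left (Nat.pos_of_ne_zero hg0) this
  have hd10 : d1 ≠ 0 := by
    rintro rfl
    rw [mul_zero] at hd1
    exact h1 (Int.natAbs_eq_zero.mp hd1)
  have hx0 : x.natAbs ≠ 0 := Int.natAbs_ne_zero.mpr hx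
  have heq : (r * g ^ 2) * (d1 * d2) = A * x.natAbs ^ s := by
    have h2 := congrArg Int.natAbs h
    rw [Int.natAbs_mul, Int.natAbs_mul, Int.natAbs_mul, Int.natAbs_pow, Int.natAbs_natCast,
      Int.natAbs_natCast, hd1, hd2] at h2
    rw [← h2]
    ring
  obtain ⟨e1, e2, A1, A2, x1, x2, k1, k2, k3, k4, k5⟩ := split (r * g ^ 2) d1 d2 A x.natAbs s
    (mul_ne_zero hr (pow_ne_zero 2 hg0)) hd10 hA hx0 hco heq
  have hg2 : r * g ^ 2 ≠ 0 := mul_ne_zero hr (pow_ne_zero 2 hg0)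
  have p1 : 1 ≤ e1 := Nat.one_le_iff_ne_zero.mpr (by rintro rfl; rw [zero_mul] at k1; exact hg2 k1)
  have p2 : 1 ≤ e2 := Nat.one_le_iff_ne_zero.mpr (by rintro rfl; rw [mul_zero] at k1; exact hg2 k1)
  have p3 : 1 ≤ A1 := Nat.one_le_iff_ne_zero.mpr (by rintro rfl; rw [zero_mul] at k2; exact hA k2)
  have p4 : 1 ≤ A2 := Nat.one_le_iff_ne_zero.mpr (by rintro rfl; rw [mul_zero] at k2; exact hA k2)
  refine ⟨g * A1, e1, g * A2, e2, x1, x2, Nat.mul_pos (Nat.pos_of_ne_zero hg0) p3, p1,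
    Nat.mul_pos (Nat.pos_of_ne_zero hg0) p4, p2, Nat.mul_le_mul_left g ?_, ?_,
    Nat.mul_le_mul_left g ?_, ?_, ?_, ?_, ?_, ?_⟩
  · rw [k2]; exact Nat.le_mul_of_pos_right _ p4
  · rw [k1]; exact Nat.le_mul_of_pos_right _ p2
  · rw [k2]; exact Nat.le_mul_of_pos_left _ p3
  · rw [k1]; exact Nat.le_mul_of_pos_left _ p1
  · rw [hd1]
    calc e1 * (g * d1) = g * (e1 * d1) := by ring
      _ = _ := by rw [k4]; ring
  · rw [hd2]
    calc e2 * (g * d2) = g * (e2 * d2) := by ring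
      _ = _ := by rw [k5]; ring
  · rw [k3]; exact Dvd.intro _ rfl
  · rw [k3]; exact Dvd.intro_left _ rfl

end Pool.Agent.H326.CS
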