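import Pool.Agent.H326.CS.C
import Pool.Agent.H326.CS.D
import Pool.Agent.H326.KQ.F

/-!
The equation `A x^s + B y^(2s) = C z^(2s)`, `B C` a square, modulo an auxiliary prime.
-/

set_option autoImplicit false

namespace Pool.Agent.H326.CS

open Finset Pool.Agent.H573.AHB Pool.Agent.H326.KQ

/-- no prime divides `x`, `y` and `z` -/
def Prim (x y z : ℤ) : Prop := ∀ p : ℕ, p.Prime → ¬ ((p : ℤ) ∣ x ∧ (p : ℤ) ∣ y ∧ (p : ℤ) ∣ z)

section
variable {s q M A B C : ℕ} {x y z : ℤ}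

lemma num (hbd : ¬ WN M q ((q - 1) / s)) {a b : ℕ} (ha : 1 ≤ a) (ha' : a ≤ M) (hb : 1 ≤ b)
    (hb' : b ≤ M) (h : (a : ZMod q) ^ ((q - 1) / s) = (b : ZMod q) ^ ((q - 1) / s)) :
    a = b := by
  by_contra hne
  apply hbd
  exact ⟨(a, b), mem_product.mpr ⟨mem_Icc.mpr ⟨ha, ha'⟩, mem_Icc.mpr ⟨hb, hb'⟩⟩, hne, h⟩

lemma cop_yz (hs : 1 ≤ s) (hMs : M ≤ s) (hA : 1 ≤ A) (hAM : A ≤ M) (hp : Prim x y z)
    (h : (A : ℤ) * x ^ s + (B : ℤ) * (y ^ s) ^ 2 = (C : ℤ) * (z ^ s) ^ 2) :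
    IsCoprime y z := by
  rw [Int.isCoprime_iff_gcd_eq_one]
  by_contra hne
  obtain ⟨p, hpp, hpd⟩ := Nat.exists_prime_and_dvd hne
  have h1 : (p : ℤ) ∣ y := (Int.natCast_dvd_natCast.mpr hpd).trans (Int.gcd_dvd_left _ _)
  have h2 : (p : ℤ) ∣ z := (Int.natCast_dvd_natCast.mpr hpd).trans (Int.gcd_dvd_right _ _)
  have hx : ¬ (p : ℤ) ∣ x := fun hx => hp p hpp ⟨hx, h1, h2⟩
  have hpi : Prime (p : ℤ) := Nat.prime_iff_prime_int.mp hpp
  have h3 : (p : ℤ) ^ s ∣ (A : ℤ) * x ^ s := by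
    have e : (A : ℤ) * x ^ s = (C : ℤ) * (z ^ s) ^ 2 - (B : ℤ) * (y ^ s) ^ 2 := by
      linarith
    rw [e]
    apply dvd_sub
    · exact ((pow_dvd_pow_of_dvd h2 s).trans (dvd_pow_self _ (by norm_num))).mul_left _
    · exact ((pow_dvd_pow_of_dvd h1 s).trans (dvd_pow_self _ (by norm_num))).mul_left _
  have hcop : IsCoprime ((p : ℤ) ^ s) (x ^ s) :=
    (((Prime.coprime_iff_not_dvd hpi).mpr hx).pow_left).pow_right
  have h4 : (p : ℤ) ^ s ∣ (A : ℤ) := hcop.dvd_of_dvd_mul_right h3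
  have h5 : p ^ s ∣ A := by exact_mod_cast h4
  have h6 := Nat.le_of_dvd hA h5
  have h7 : 2 ^ s ≤ p ^ s := Nat.pow_le_pow_left hpp.two_le s
  have h8 : s < 2 ^ s := Nat.lt_two_pow_self
  omega

/-- the greatest common divisor of the two factors -/
lemma gcd_bound (hc : IsCoprime y z) (hB : 1 ≤ B) (hC : 1 ≤ C) (hBM : B ≤ M) (hCM : C ≤ M) :
    Int.gcd ((C : ℤ) * z ^ s - B * y ^ s) ((C : ℤ) * z ^ s + B * y ^ s) ≤ 2 * M ^ 2 := by
  obtain ⟨g, hg⟩ : ∃ g, g = Int.gcd ((C : ℤ) * z ^ s - B * y ^ s) ((C : ℤ) * z ^ s + B * y ^ s) :=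
    ⟨_, rfl⟩
  rw [← hg]
  have d1 : (g : ℤ) ∣ (C : ℤ) * z ^ s - B * y ^ s := by rw [hg]; exact Int.gcd_dvd_left _ _
  have d2 : (g : ℤ) ∣ (C : ℤ) * z ^ s + B * y ^ s := by rw [hg]; exact Int.gcd_dvd_right _ _
  have hc' : IsCoprime (y ^ s) (z ^ s) := hc.pow
  obtain ⟨a, b, hab⟩ := hc'
  have d3 : (g : ℤ) ∣ 2 * B * C := by
    have e : (2 * B * C : ℤ) = (((C : ℤ) * z ^ s + B * y ^ s) - ((C : ℤ) * z ^ s - B * y ^ s)) *
        (a * C) + (((C : ℤ) * z ^ s + B * y ^ s) + ((C : ℤ) * z ^ s - B * y ^ s)) * (b * B) := by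
      calc (2 * B * C : ℤ) = 2 * B * C * (a * y ^ s + b * z ^ s) := by rw [hab, mul_one]
        _ = _ := by ring
    rw [e]
    exact dvd_add ((dvd_sub d2 d1).mul_right _) ((dvd_add d2 d1).mul_right _)
  have d4 : g ∣ 2 * B * C := by exact_mod_cast d3
  have h1 := Nat.le_of_dvd (by positivity) d4
  calc g ≤ 2 * B * C := h1
    _ ≤ 2 * M * M := Nat.mul_le_mul (Nat.mul_le_mul_left 2 hBM) hCM
    _ = 2 * M ^ 2 := by ring

lemma abs_pow_even {n : ℕ} (hn : Even n) (D : ℤ) :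
    ((D.natAbs : ℕ) : ZMod q) ^ n = (D : ZMod q) ^ n := by
  rcases Int.natAbs_eq D with h | h
  · have : ((D : ℤ) : ZMod q) = ((D.natAbs : ℤ) : ZMod q) := by rw [← h]
    rw [this, Int.cast_natCast]
  · have : ((D : ℤ) : ZMod q) = ((-(D.natAbs : ℤ) : ℤ) : ZMod q) := by rw [← h]
    rw [this, Int.cast_neg, hn.neg_pow, Int.cast_natCast]

/-- one factor -/
lemma factor [Fact q.Prime] {n : ℕ} (hn : s * n = q - 1) (hev : Even n) (D : ℤ) (a b u : ℕ)
    (hu : u ∣ x.natAbs) (hx : (x : ZMod q) ≠ 0) (h : b * D.natAbs = a * u ^ s) (Y : ZMod q)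
    (hY : Y ≠ 0) : ((b : ZMod q) * (D : ZMod q) / Y ^ s) ^ n = (a : ZMod q) ^ n := by
  have hq : q.Prime := Fact.out
  have hu0 : (u : ZMod q) ≠ 0 := by
    intro h0
    obtain ⟨w, hw⟩ := hu
    apply hx
    have h1 : ((x.natAbs : ℕ) : ZMod q) = 0 := by rw [hw, Nat.cast_mul, h0, zero_mul]
    rw [ZMod.natCast_eq_zero_iff] at h1
    rw [ZMod.intCast_zmod_eq_zero_iff_dvd]
    exact Int.natCast_dvd.mpr h1
  have e1 : (b : ZMod q) * ((D.natAbs : ℕ) : ZMod q) = (a : ZMod q) * (u : ZMod q) ^ s := by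
    have := congrArg (fun k : ℕ => (k : ZMod q)) h
    push_cast at this
    exact_mod_cast this
  rw [div_pow, mul_pow, ← abs_pow_even hev, ← mul_pow, e1, mul_pow, pw hq hn (u : ZMod q) hu0,
    mul_one, pw hq hn Y hY, div_one]

/-- **the local analysis** -/
theorem local_main (hq : q.Prime) (hs : s.Prime) (hs2 : 2 < s) (hsq : s ∣ q - 1) (hMs : M ≤ s)
    (hbd : ¬ BD M q ((q - 1) / s)) (hA : 1 ≤ A) (hB : 1 ≤ B) (hC : 1 ≤ C) (hAM : A ≤ M)
    (hBM : B ≤ M) (hCM : C ≤ M) {r β γ : ℕ} (hr : 1 ≤ r) (hβ : 1 ≤ β) (hγ : 1 ≤ γ)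
    (hBr : B = r * β ^ 2) (hCr : C = r * γ ^ 2) (hp : Prim x y z)
    (h : (A : ℤ) * x ^ s + (B : ℤ) * (y ^ s) ^ 2 = (C : ℤ) * (z ^ s) ^ 2) :
    ((q : ℤ) ∣ x → B = C) ∧ ((q : ℤ) ∣ y → A = C) ∧ ((q : ℤ) ∣ z → A = B) ∧
      (¬ (q : ℤ) ∣ x * y * z → A + B = C ∨ A + C = B) := by
  have hF : Fact q.Prime := ⟨hq⟩
  obtain ⟨hn, hev, hn1, hlt⟩ := aux_n hq hs hs2 hsq
  have hWN : ¬ WN M q ((q - 1) / s) := fun h => hbd (Or.inl h)
  have hWT : ¬ WT M q ((q - 1) / s) := fun h => hbd (Or.inr h)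
  have numq := @num s q M hWN
  obtain ⟨n, hnn⟩ : ∃ n, n = (q - 1) / s := ⟨_, rfl⟩
  rw [← hnn] at hn hev hn1 hWT numq
  have hs0 : s ≠ 0 := by omega
  have hA0 : (A : ZMod q) ≠ 0 := nat_ne (H := M) (by omega) hA hAM
  have hB0 : (B : ZMod q) ≠ 0 := nat_ne (H := M) (by omega) hB hBM
  have hC0 : (C : ZMod q) ≠ 0 := nat_ne (H := M) (by omega) hC hCM
  have dv : ∀ w : ℤ, (q : ℤ) ∣ w ↔ (w : ZMod q) = 0 := fun w =>
    (ZMod.intCast_zmod_eq_zero_iff_dvd w q).symm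
  have hall : ¬ ((x : ZMod q) = 0 ∧ (y : ZMod q) = 0 ∧ (z : ZMod q) = 0) := by
    rintro ⟨h1, h2, h3⟩
    exact hp q hq ⟨(dv x).mpr h1, (dv y).mpr h2, (dv z).mpr h3⟩
  have hc : (A : ZMod q) * (x : ZMod q) ^ s + (B : ZMod q) * ((y : ZMod q) ^ s) ^ 2 =
      (C : ZMod q) * ((z : ZMod q) ^ s) ^ 2 := by
    have := congrArg (fun k : ℤ => (k : ZMod q)) h
    push_cast at this
    exact this
  obtain ⟨X, hX⟩ : ∃ X, X = (x : ZMod q) := ⟨_, rfl⟩
  obtain ⟨Y, hY⟩ : ∃ Y, Y = (y : ZMod q) := ⟨_, rfl⟩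
  obtain ⟨Z, hZ⟩ : ∃ Z, Z = (z : ZMod q) := ⟨_, rfl⟩
  rw [← hX, ← hY, ← hZ] at hc hall
  have pn : ∀ w : ZMod q, w ≠ 0 → (w ^ s) ^ n = 1 := fun w hw => pw hq hn w hw
  have pn2 : ∀ w : ZMod q, w ≠ 0 → ((w ^ s) ^ 2) ^ n = 1 := fun w hw => by
    rw [← pow_mul, mul_comm 2 n, pow_mul, pn w hw, one_pow]
  have z2 : ∀ w : ZMod q, (w ^ s) ^ 2 = 0 → w = 0 := fun w hw =>
    pow_eq_zero_iff hs0 |>.mp (pow_eq_zero_iff two_ne_zero |>.mp hw)
  refine ⟨?_, ?_, ?_, ?_⟩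
  · intro hx
    rw [dv, ← hX] at hx
    rw [hx, zero_pow hs0, mul_zero, zero_add] at hc
    have hYZ : Y ≠ 0 ∧ Z ≠ 0 := by
      constructor
      · intro h0
        rw [h0, zero_pow hs0, zero_pow two_ne_zero, mul_zero] at hc
        rcases mul_eq_zero.mp hc.symm with h1 | h1
        · exact hC0 h1
        · exact hall ⟨hx, h0, z2 _ h1⟩
      · intro h0
        rw [h0, zero_pow hs0, zero_pow two_ne_zero, mul_zero] at hc
        rcases mul_eq_zero.mp hc with h1 | h1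
        · exact hB0 h1
        · exact hall ⟨hx, z2 _ h1, h0⟩
    have h1 := congrArg (fun w => w ^ n) hc
    simp only [mul_pow (B : ZMod q), mul_pow (C : ZMod q)] at h1
    rw [pn2 Y hYZ.1, pn2 Z hYZ.2, mul_one, mul_one] at h1
    exact numq hB hBM hC hCM h1
  · intro hy
    rw [dv, ← hY] at hy
    rw [hy, zero_pow hs0, zero_pow two_ne_zero, mul_zero, add_zero] at hc
    have hXZ : X ≠ 0 ∧ Z ≠ 0 := by
      constructor
      · intro h0
        rw [h0, zero_pow hs0, mul_zero] at hc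
        rcases mul_eq_zero.mp hc.symm with h1 | h1
        · exact hC0 h1
        · exact hall ⟨h0, hy, z2 _ h1⟩
      · intro h0
        rw [h0, zero_pow hs0, zero_pow two_ne_zero, mul_zero] at hc
        rcases mul_eq_zero.mp hc with h1 | h1
        · exact hA0 h1
        · exact hall ⟨pow_eq_zero_iff hs0 |>.mp h1, hy, h0⟩
    have h1 := congrArg (fun w => w ^ n) hc
    simp only [mul_pow (A : ZMod q), mul_pow (C : ZMod q)] at h1
    rw [pn X hXZ.1, pn2 Z hXZ.2, mul_one, mul_one] at h1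
    exact numq hA hAM hC hCM h1
  · intro hz
    rw [dv, ← hZ] at hz
    rw [hz, zero_pow hs0, zero_pow two_ne_zero, mul_zero] at hc
    have hXY : X ≠ 0 ∧ Y ≠ 0 := by
      constructor
      · intro h0
        rw [h0, zero_pow hs0, mul_zero, zero_add] at hc
        rcases mul_eq_zero.mp hc with h1 | h1
        · exact hB0 h1
        · exact hall ⟨h0, z2 _ h1, hz⟩
      · intro h0
        rw [h0, zero_pow hs0, zero_pow two_ne_zero, mul_zero, add_zero] at hc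
        rcases mul_eq_zero.mp hc with h1 | h1
        · exact hA0 h1
        · exact hall ⟨pow_eq_zero_iff hs0 |>.mp h1, h0, hz⟩
    have hc' := eq_neg_of_add_eq_zero_left hc
    have h1 := congrArg (fun w => w ^ n) hc'
    simp only [hev.neg_pow, mul_pow (A : ZMod q), mul_pow (B : ZMod q)] at h1
    rw [pn X hXY.1, pn2 Y hXY.2, mul_one, mul_one] at h1
    exact numq hA hAM hB hBM h1
  · intro hxyz
    have hX0 : X ≠ 0 := fun h0 => hxyz (by
      rw [hX, ← dv] at h0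
      exact (h0.mul_right y).mul_right z)
    have hY0 : Y ≠ 0 := fun h0 => hxyz (by
      rw [hY, ← dv] at h0
      exact (h0.mul_left x).mul_right z)
    have hZ0 : Z ≠ 0 := fun h0 => hxyz (by
      rw [hZ, ← dv] at h0
      exact h0.mul_left (x * y))
    have hYs : Y ^ s ≠ 0 := pow_ne_zero s hY0
    have hx0 : x ≠ 0 := by
      rintro rfl
      apply hX0
      rw [hX, Int.cast_zero]
    obtain ⟨D1, hD1⟩ : ∃ D, D = (γ : ℤ) * z ^ s - β * y ^ s := ⟨_, rfl⟩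
    obtain ⟨D2, hD2⟩ : ∃ D, D = (γ : ℤ) * z ^ s + β * y ^ s := ⟨_, rfl⟩
    have hprod : r * (D1 * D2) = A * x ^ s := by
      rw [hD1, hD2]
      have h5 : (A : ℤ) * x ^ s = (C : ℤ) * (z ^ s) ^ 2 - (B : ℤ) * (y ^ s) ^ 2 := by
        linarith
      rw [h5, hBr, hCr]
      push_cast
      ring
    have hA0z : (A : ℤ) ≠ 0 := by exact_mod_cast (by omega : A ≠ 0)
    have hD10 : D1 ≠ 0 := by
      rintro h0
      rw [h0, zero_mul, mul_zero] at hprod
      exact mul_ne_zero hA0z (pow_ne_zero s hx0) hprod.symm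
    have hrM : r ≤ M := by
      refine le_trans ?_ hBM
      rw [hBr]
      exact Nat.le_mul_of_pos_right _ (Nat.one_le_pow _ _ hβ)
    have hβM : β ≤ M := by
      refine le_trans (Nat.le_self_pow two_ne_zero β) (le_trans ?_ hBM)
      rw [hBr]
      exact Nat.le_mul_of_pos_left _ hr
    have hγM : γ ≤ M := by
      refine le_trans (Nat.le_self_pow two_ne_zero γ) (le_trans ?_ hCM)
      rw [hCr]
      exact Nat.le_mul_of_pos_left _ hr
    obtain ⟨g, hg⟩ : ∃ g, g = Int.gcd D1 D2 := ⟨_, rfl⟩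
    have hgM : g ≤ 2 * M ^ 2 := by
      rw [hg, hD1, hD2]
      exact gcd_bound (cop_yz (by omega) hMs hA hAM hp h) hβ hγ hβM hγM
    obtain ⟨a, b, c, d, u, v, a1, b1, c1, d1, a2, b2, c2, d2, e1, e2, u1, v1⟩ :=
      split_int D1 D2 x A r g s (by omega) (by omega) hx0 hD10 hg.symm hprod
    have hM1 : 1 ≤ M := hA.trans hAM
    have hM5 : M ≤ M ^ 5 := Nat.le_self_pow (by norm_num) M
    have hgA : g * A ≤ 4 * M ^ 5 := by
      calc g * A ≤ 2 * M ^ 2 * M := Nat.mul_le_mul hgM hAM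
        _ = 2 * (M ^ 3 * 1) := by ring
        _ ≤ 2 * (M ^ 3 * M ^ 2) := Nat.mul_le_mul_left 2 (Nat.mul_le_mul_left _
            (Nat.one_le_pow _ _ hM1))
        _ = 2 * M ^ 5 := by ring
        _ ≤ 4 * M ^ 5 := Nat.mul_le_mul_right _ (by norm_num)
    have hg2 : r * g ^ 2 ≤ 4 * M ^ 5 := by
      calc r * g ^ 2 ≤ M * (2 * M ^ 2) ^ 2 := Nat.mul_le_mul hrM (Nat.pow_le_pow_left hgM 2)
        _ = 4 * M ^ 5 := by ring
    have hM4 : M ≤ 4 * M ^ 5 := hM5.trans (Nat.le_mul_of_pos_left _ (by norm_num))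
    obtain ⟨t, ht⟩ : ∃ t, t = Z ^ s / Y ^ s := ⟨_, rfl⟩
    have ht2 : t ^ 2 = 1 := by
      by_contra htne
      apply hWT
      refine ⟨![β, γ, a, b, c, d], ?_, t, htne, ?_, ?_, ?_⟩
      · rw [Fintype.mem_piFinset]
        intro i
        rw [mem_Icc]
        fin_cases i
        · exact ⟨hβ, hβM.trans hM4⟩
        · exact ⟨hγ, hγM.trans hM4⟩
        · exact ⟨a1, a2.trans hgA⟩
        · exact ⟨b1, b2.trans hg2⟩
        · exact ⟨c1, c2.trans hgA⟩
        · exact ⟨d1, d2.trans hg2⟩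
      · rw [ht, div_pow, pn Z hZ0, pn Y hY0, div_one]
      · have f := factor hn hev D1 a b u u1 (by rw [← hX]; exact hX0) e1 Y hY0
        have e : (b : ZMod q) * (D1 : ZMod q) / Y ^ s =
            (b : ZMod q) * ((γ : ZMod q) * t - (β : ZMod q)) := by
          rw [hD1, ht]
          push_cast
          rw [← hY, ← hZ]
          field_simp
        rw [e] at f
        exact f
      · have f := factor hn hev D2 c d v v1 (by rw [← hX]; exact hX0) e2 Y hY0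
        have e : (d : ZMod q) * (D2 : ZMod q) / Y ^ s =
            (d : ZMod q) * ((γ : ZMod q) * t + (β : ZMod q)) := by
          rw [hD2, ht]
          push_cast
          rw [← hY, ← hZ]
          field_simp
        rw [e] at f
        exact f
    have hZY : (Z ^ s) ^ 2 = (Y ^ s) ^ 2 := by
      rw [ht, div_pow, div_eq_one_iff_eq (pow_ne_zero 2 hYs)] at ht2
      exact ht2
    have h3 : (A : ZMod q) * X ^ s = ((C : ZMod q) - (B : ZMod q)) * (Y ^ s) ^ 2 := by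
      rw [hZY] at hc
      linear_combination hc
    have h4 := congrArg (fun w => w ^ n) h3
    simp only [mul_pow (A : ZMod q), mul_pow ((C : ZMod q) - (B : ZMod q))] at h4
    rw [pn X hX0, pn2 Y hY0, mul_one, mul_one] at h4
    rcases lt_trichotomy B C with hlt' | heq | hgt
    · left
      have e : ((C : ZMod q) - (B : ZMod q)) = ((C - B : ℕ) : ZMod q) := by
        rw [Nat.cast_sub hlt'.le]
      rw [e] at h4
      have := numq hA hAM (by omega) (by omega) h4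
      omega
    · exfalso
      rw [heq, sub_self, zero_mul] at h3
      exact mul_ne_zero hA0 (pow_ne_zero s hX0) h3
    · right
      have e : ((C : ZMod q) - (B : ZMod q)) = -((B - C : ℕ) : ZMod q) := by
        rw [Nat.cast_sub hgt.le]
        ring
      rw [e, hev.neg_pow] at h4
      have := numq hA hAM (by omega) (by omega) h4
      omega

end

/-- two numbers whose product is a square -/
lemma same_class {B C w : ℕ} (hB : 1 ≤ B) (hC : 1 ≤ C) (h : B * C = w ^ 2) :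
    ∃ r β γ : ℕ, 1 ≤ r ∧ 1 ≤ β ∧ 1 ≤ γ ∧ B = r * β ^ 2 ∧ C = r * γ ^ 2 := by
  obtain ⟨g, hg⟩ : ∃ g, g = Nat.gcd B C := ⟨_, rfl⟩
  have hg0 : 0 < g := by rw [hg]; exact Nat.gcd_pos_of_pos_left _ hB
  obtain ⟨b, hb⟩ : g ∣ B := by rw [hg]; exact Nat.gcd_dvd_left _ _
  obtain ⟨c, hc⟩ : g ∣ C := by rw [hg]; exact Nat.gcd_dvd_right _ _
  have hco : Nat.gcd b c = 1 := by
    have h1 : g * Nat.gcd b c = g * 1 := by
      rw [← Nat.gcd_mul_left, ← hb, ← hc, ← hg, mul_one]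
    exact Nat.eq_of_mul_eq_mul_left hg0 h1
  have hgw : g ∣ w := by
    rw [← Nat.pow_dvd_pow_iff two_ne_zero, ← h, hb, hc]
    exact ⟨b * c, by ring⟩
  obtain ⟨v, hv⟩ := hgw
  have hbc : b * c = v ^ 2 := by
    have h1 : g ^ 2 * (b * c) = g ^ 2 * v ^ 2 := by
      calc g ^ 2 * (b * c) = (g * b) * (g * c) := by ring
        _ = w ^ 2 := by rw [← hb, ← hc, h]
        _ = _ := by rw [hv]; ring
    exact Nat.eq_of_mul_eq_mul_left (pow_pos hg0 2) h1
  obtain ⟨β, hβ⟩ := exists_eq_pow_of_mul_eq_pow (by rw [Nat.isUnit_iff]; exact hco) hbc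
  obtain ⟨γ, hγ⟩ := exists_eq_pow_of_mul_eq_pow
    (by rw [Nat.isUnit_iff]; exact (Nat.gcd_comm c b).trans hco) ((mul_comm c b).trans hbc)
  refine ⟨g, β, γ, hg0, ?_, ?_, by rw [hb, hβ], by rw [hc, hγ]⟩
  · apply Nat.one_le_iff_ne_zero.mpr
    rintro rfl
    rw [zero_pow two_ne_zero] at hβ
    rw [hβ, mul_zero] at hb
    omega
  · apply Nat.one_le_iff_ne_zero.mpr
    rintro rfl
    rw [zero_pow two_ne_zero] at hγ
    rw [hγ, mul_zero] at hc
    omega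

end Pool.Agent.H326.CS
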