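import Mathlib

/-!
Numbers whose valuations are small modulo `s`.
-/

set_option autoImplicit false

namespace Pool.Agent.H326.CS

/-- a natural number with valuations small modulo `s` is small up to `s`-th powers -/
lemma small_class (s E a : ℕ) (ha : a ≠ 0) (hE : E ≠ 0)
    (h : ∀ p : ℕ, p.Prime → ∃ k i j : ℕ, a.factorization p + j = s * k + i ∧
      i ≤ E.factorization p ∧ j ≤ E.factorization p) :
    ∃ w a1 b1 : ℕ, w ≠ 0 ∧ 1 ≤ a1 ∧ 1 ≤ b1 ∧ a1 ∣ E ∧ b1 ∣ E ∧ b1 * a = a1 * w ^ s := by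
  classical
  choose! k i j h1 h2 h3 using h
  obtain ⟨P, hP⟩ : ∃ P, P = (a * E).primeFactors := ⟨_, rfl⟩
  have hPp : ∀ p ∈ P, p.Prime := fun p hp => by
    rw [hP] at hp
    exact Nat.prime_of_mem_primeFactors hp
  have mk : ∀ g : ℕ → ℕ, ∃ f : ℕ →₀ ℕ, (∀ p ∈ P, f p = g p) ∧ (∀ p, p ∉ P → f p = 0) ∧
      ∀ p ∈ f.support, p.Prime := by
    intro g
    refine ⟨Finsupp.onFinset P (fun p => if p ∈ P then g p else 0) (fun p hp => ?_), ?_, ?_, ?_⟩
    · by_contra hne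
      exact hp (if_neg hne)
    · intro p hp
      rw [Finsupp.onFinset_apply, if_pos hp]
    · intro p hp
      rw [Finsupp.onFinset_apply, if_neg hp]
    · intro p hp
      rw [Finsupp.mem_support_iff, Finsupp.onFinset_apply] at hp
      by_contra hne
      apply hp
      rw [if_neg]
      intro hp'
      exact hne (hPp p hp')
  obtain ⟨K, K1, K2, K3⟩ := mk k
  obtain ⟨I, I1, I2, I3⟩ := mk i
  obtain ⟨J, J1, J2, J3⟩ := mk j
  have fK := Nat.prod_pow_factorization_eq_self K3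
  have fI := Nat.prod_pow_factorization_eq_self I3
  have fJ := Nat.prod_pow_factorization_eq_self J3
  have ne0 : ∀ f : ℕ →₀ ℕ, (∀ p ∈ f.support, p.Prime) → f.prod (fun x1 x2 => x1 ^ x2) ≠ 0 := by
    intro f hf
    rw [Finsupp.prod]
    exact Finset.prod_ne_zero_iff.mpr (fun p hp => pow_ne_zero _ (hf p hp).ne_zero)
  obtain ⟨w, hw⟩ : ∃ w, w = K.prod (fun x1 x2 => x1 ^ x2) := ⟨_, rfl⟩
  obtain ⟨a1, ha1⟩ : ∃ w, w = I.prod (fun x1 x2 => x1 ^ x2) := ⟨_, rfl⟩
  obtain ⟨b1, hb1⟩ : ∃ w, w = J.prod (fun x1 x2 => x1 ^ x2) := ⟨_, rfl⟩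
  have w0 : w ≠ 0 := by rw [hw]; exact ne0 K K3
  have a0 : a1 ≠ 0 := by rw [ha1]; exact ne0 I I3
  have b0 : b1 ≠ 0 := by rw [hb1]; exact ne0 J J3
  rw [← hw] at fK
  rw [← ha1] at fI
  rw [← hb1] at fJ
  refine ⟨w, a1, b1, w0, Nat.one_le_iff_ne_zero.mpr a0, Nat.one_le_iff_ne_zero.mpr b0, ?_, ?_, ?_⟩
  · rw [← Nat.factorization_le_iff_dvd a0 hE, fI]
    intro p
    by_cases hp : p ∈ P
    · rw [I1 p hp]
      exact h2 p (hPp p hp)
    · rw [I2 p hp]
      exact Nat.zero_le _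
  · rw [← Nat.factorization_le_iff_dvd b0 hE, fJ]
    intro p
    by_cases hp : p ∈ P
    · rw [J1 p hp]
      exact h3 p (hPp p hp)
    · rw [J2 p hp]
      exact Nat.zero_le _
  · apply Nat.eq_of_factorization_eq (mul_ne_zero b0 ha) (mul_ne_zero a0 (pow_ne_zero s w0))
    intro p
    rw [Nat.factorization_mul b0 ha, Nat.factorization_mul a0 (pow_ne_zero s w0),
      Nat.factorization_pow, fK, fI, fJ, Finsupp.add_apply, Finsupp.add_apply, Finsupp.smul_apply,
      smul_eq_mul]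
    by_cases hp : p ∈ P
    · rw [I1 p hp, J1 p hp, K1 p hp, add_comm, h1 p (hPp p hp), add_comm]
    · rw [I2 p hp, J2 p hp, K2 p hp, mul_zero, add_zero, zero_add]
      by_cases hpp : p.Prime
      · apply Nat.factorization_eq_zero_of_not_dvd
        intro hd
        apply hp
        rw [hP]
        exact Nat.mem_primeFactors.mpr ⟨hpp, hd.mul_right E, mul_ne_zero ha hE⟩
      · exact Nat.factorization_eq_zero_of_not_prime a hpp

end Pool.Agent.H326.CS
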