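import Mathlib

/-!
Valuations of the two factors at a local point.
-/

set_option autoImplicit false

namespace Pool.Agent.H326.CS

section
variable {p : ℕ} [hp : Fact p.Prime]

lemma nat_norm_le (n : ℕ) : ‖(n : ℚ_[p])‖ ≤ 1 := by
  have := Padic.norm_int_le_one (p := p) (n : ℤ)
  rwa [Int.cast_natCast] at this

lemma val_nat (n : ℕ) : ((n : ℚ_[p])).valuation = (n.factorization p : ℤ) := by
  rw [Padic.valuation_natCast, Nat.factorization_def n hp.out]

lemma val_le_of_norm {x y : ℚ_[p]} (hx : x ≠ 0) (hy : y ≠ 0) (h : ‖x‖ ≤ ‖y‖) :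
    y.valuation ≤ x.valuation := by
  rw [Padic.norm_eq_zpow_neg_valuation hx, Padic.norm_eq_zpow_neg_valuation hy] at h
  have h1 : (1 : ℝ) < p := by exact_mod_cast hp.out.one_lt
  have h2 := (zpow_le_zpow_iff_right₀ h1).mp h
  omega

/-- the valuation of the coefficient of a factor that is not too small -/
lemma val_core (s F a : ℕ) (hF : F ≠ 0) (ha : a ≠ 0) (D u : ℚ_[p]) (hD1 : ‖D‖ ≤ 1)
    (hD2 : ‖(F : ℚ_[p])‖ ≤ ‖D‖) (h : D = a * u ^ s) :
    ∃ (t : ℤ) (i : ℕ), (a.factorization p : ℤ) = s * t + i ∧ i ≤ F.factorization p := by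
  have hF0 : (F : ℚ_[p]) ≠ 0 := by exact_mod_cast hF
  have ha0 : (a : ℚ_[p]) ≠ 0 := by exact_mod_cast ha
  have hD0 : D ≠ 0 := by
    rintro rfl
    rw [norm_zero] at hD2
    exact hF0 (norm_le_zero_iff.mp hD2)
  have h1 := val_le_of_norm hF0 hD0 hD2
  have h2 : 0 ≤ D.valuation := by
    have := val_le_of_norm hD0 one_ne_zero (by rw [norm_one]; exact hD1)
    rwa [Padic.valuation_one] at this
  rw [val_nat] at h1
  have hus : u ^ s ≠ 0 := by
    intro h0
    rw [h0, mul_zero] at h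
    exact hD0 h
  have h3 : D.valuation = (a.factorization p : ℤ) + s * u.valuation := by
    rw [h, Padic.valuation_mul ha0 hus, Padic.valuation_pow, val_nat]
  refine ⟨-u.valuation, D.valuation.toNat, ?_, ?_⟩
  · rw [Int.toNat_of_nonneg h2, h3]
    ring
  · omega

lemma norm_sub_max (x y : ℚ_[p]) : ‖x - y‖ ≤ max ‖x‖ ‖y‖ := by
  rw [sub_eq_add_neg, ← norm_neg y]
  exact IsUltrametricDist.norm_add_le_max x (-y)

/-- one of the two factors is not too small -/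
lemma one_large (s β γ : ℕ) (y z : ℚ_[p]) (h : y = 1 ∨ z = 1) :
    ‖((2 * β * γ : ℕ) : ℚ_[p])‖ ≤ ‖(γ : ℚ_[p]) * z ^ s - β * y ^ s‖ ∨
      ‖((2 * β * γ : ℕ) : ℚ_[p])‖ ≤ ‖(γ : ℚ_[p]) * z ^ s + β * y ^ s‖ := by
  rw [← le_max_iff]
  obtain ⟨D1, hD1⟩ : ∃ D, D = (γ : ℚ_[p]) * z ^ s - β * y ^ s := ⟨_, rfl⟩
  obtain ⟨D2, hD2⟩ : ∃ D, D = (γ : ℚ_[p]) * z ^ s + β * y ^ s := ⟨_, rfl⟩
  rw [← hD1, ← hD2]
  have n2 := nat_norm_le (p := p)
  rcases h with h | h
  · have e : D2 - D1 = ((2 * β : ℕ) : ℚ_[p]) := by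
      rw [hD1, hD2, h, one_pow]
      push_cast
      ring
    have h1 : ‖D2 - D1‖ ≤ max ‖D1‖ ‖D2‖ := by
      rw [max_comm]
      exact norm_sub_max D2 D1
    rw [e] at h1
    refine le_trans ?_ h1
    have e2 : ((2 * β * γ : ℕ) : ℚ_[p]) = ((2 * β : ℕ) : ℚ_[p]) * (γ : ℚ_[p]) := by
      push_cast
      ring
    rw [e2, norm_mul]
    exact mul_le_of_le_one_right (norm_nonneg _) (n2 γ)
  · have e : D2 + D1 = ((2 * γ : ℕ) : ℚ_[p]) := by
      rw [hD1, hD2, h, one_pow]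
      push_cast
      ring
    have h1 : ‖D2 + D1‖ ≤ max ‖D1‖ ‖D2‖ := by
      rw [max_comm]
      exact IsUltrametricDist.norm_add_le_max D2 D1
    rw [e] at h1
    refine le_trans ?_ h1
    have e2 : ((2 * β * γ : ℕ) : ℚ_[p]) = ((2 * γ : ℕ) : ℚ_[p]) * (β : ℚ_[p]) := by
      push_cast
      ring
    rw [e2, norm_mul]
    exact mul_le_of_le_one_right (norm_nonneg _) (n2 β)

lemma small_norm (s β γ : ℕ) (y z : ℚ_[p]) (hy : ‖y‖ ≤ 1) (hz : ‖z‖ ≤ 1) :
    ‖(γ : ℚ_[p]) * z ^ s - β * y ^ s‖ ≤ 1 ∧ ‖(γ : ℚ_[p]) * z ^ s + β * y ^ s‖ ≤ 1 := by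
  have h1 : ‖(γ : ℚ_[p]) * z ^ s‖ ≤ 1 := by
    rw [norm_mul, norm_pow]
    exact mul_le_one₀ (nat_norm_le γ) (pow_nonneg (norm_nonneg _) s)
      (pow_le_one₀ (norm_nonneg _) hz)
  have h2 : ‖(β : ℚ_[p]) * y ^ s‖ ≤ 1 := by
    rw [norm_mul, norm_pow]
    exact mul_le_one₀ (nat_norm_le β) (pow_nonneg (norm_nonneg _) s)
      (pow_le_one₀ (norm_nonneg _) hy)
  constructor
  · exact (norm_sub_max _ _).trans (max_le h1 h2)
  · exact (IsUltrametricDist.norm_add_le_max _ _).trans (max_le h1 h2)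

/-- normalised coordinates -/
lemma normalise (y z : ℚ_[p]) (h : y ≠ 0 ∨ z ≠ 0) :
    ∃ m : ℚ_[p], m ≠ 0 ∧ ‖y / m‖ ≤ 1 ∧ ‖z / m‖ ≤ 1 ∧ (y / m = 1 ∨ z / m = 1) := by
  rcases le_total ‖y‖ ‖z‖ with hle | hle
  · have hz : z ≠ 0 := by
      rcases h with h | h
      · intro h0
        rw [h0, norm_zero] at hle
        exact h (norm_le_zero_iff.mp hle)
      · exact h
    refine ⟨z, hz, ?_, ?_, Or.inr (div_self hz)⟩
    · rw [norm_div]
      exact div_le_one_of_le₀ hle (norm_nonneg _)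
    · rw [div_self hz, norm_one]
  · have hy : y ≠ 0 := by
      rcases h with h | h
      · exact h
      · intro h0
        rw [h0, norm_zero] at hle
        exact h (norm_le_zero_iff.mp hle)
    refine ⟨y, hy, ?_, ?_, Or.inl (div_self hy)⟩
    · rw [div_self hy, norm_one]
    · rw [norm_div]
      exact div_le_one_of_le₀ hle (norm_nonneg _)

/-- **the class of the coefficient of the first factor at `p`** -/
theorem loc_val (s r A β γ a b c1 c2 : ℕ) (hr : r ≠ 0) (hA : A ≠ 0) (hβ : β ≠ 0) (hγ : γ ≠ 0)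
    (ha : a ≠ 0) (hb : b ≠ 0) (hc1 : c1 ≠ 0) (hc2 : c2 ≠ 0)
    (hE : 2 * β * γ * r * A < 2 ^ s) (habc : r * (a * b) * c2 ^ s = A * c1 ^ s)
    (y z u v : ℚ_[p]) (hyz : y ≠ 0 ∨ z ≠ 0)
    (h : ((γ : ℚ_[p]) * z ^ s - β * y ^ s = a * u ^ s ∧
        (γ : ℚ_[p]) * z ^ s + β * y ^ s = b * v ^ s) ∨
      ((γ : ℚ_[p]) * z ^ s + β * y ^ s = a * u ^ s ∧
        (γ : ℚ_[p]) * z ^ s - β * y ^ s = b * v ^ s)) :
    ∃ k i j : ℕ, a.factorization p + j = s * k + i ∧
      i ≤ (2 * β * γ * r * A).factorization p ∧ j ≤ (2 * β * γ * r * A).factorization p := by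
  obtain ⟨m, hm, hy1, hz1, h1⟩ := normalise y z hyz
  have hms : m ^ s ≠ 0 := pow_ne_zero s hm
  obtain ⟨D1, hD1⟩ : ∃ D, D = (γ : ℚ_[p]) * (z / m) ^ s - β * (y / m) ^ s := ⟨_, rfl⟩
  obtain ⟨D2, hD2⟩ : ∃ D, D = (γ : ℚ_[p]) * (z / m) ^ s + β * (y / m) ^ s := ⟨_, rfl⟩
  obtain ⟨n1, n2⟩ := small_norm s β γ (y / m) (z / m) hy1 hz1
  have hl := one_large s β γ (y / m) (z / m) h1
  rw [← hD1, ← hD2] at hl
  rw [← hD1] at n1
  rw [← hD2] at n2
  have e1 : D1 = ((γ : ℚ_[p]) * z ^ s - β * y ^ s) / m ^ s := by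
    rw [hD1, div_pow, div_pow]
    field_simp
  have e2 : D2 = ((γ : ℚ_[p]) * z ^ s + β * y ^ s) / m ^ s := by
    rw [hD2, div_pow, div_pow]
    field_simp
  -- the two factors, in the order of `a`, `b`
  obtain ⟨Da, Db, na, nb, hab, ea, eb⟩ : ∃ Da Db : ℚ_[p], ‖Da‖ ≤ 1 ∧ ‖Db‖ ≤ 1 ∧
      (‖((2 * β * γ : ℕ) : ℚ_[p])‖ ≤ ‖Da‖ ∨ ‖((2 * β * γ : ℕ) : ℚ_[p])‖ ≤ ‖Db‖) ∧
      Da = a * (u / m) ^ s ∧ Db = b * (v / m) ^ s := by
    rcases h with ⟨g1, g2⟩ | ⟨g1, g2⟩
    · refine ⟨D1, D2, n1, n2, hl, ?_, ?_⟩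
      · rw [e1, g1, div_pow, mul_div_assoc]
      · rw [e2, g2, div_pow, mul_div_assoc]
    · refine ⟨D2, D1, n2, n1, hl.symm, ?_, ?_⟩
      · rw [e2, g1, div_pow, mul_div_assoc]
      · rw [e1, g2, div_pow, mul_div_assoc]
  have hF0 : 2 * β * γ ≠ 0 := mul_ne_zero (mul_ne_zero two_ne_zero hβ) hγ
  obtain ⟨E, hEE⟩ : ∃ E, E = 2 * β * γ * r * A := ⟨_, rfl⟩
  have hE0 : E ≠ 0 := by rw [hEE]; exact mul_ne_zero (mul_ne_zero hF0 hr) hA
  have hfac : E.factorization p = (2 * β * γ).factorization p + r.factorization p +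
      A.factorization p := by
    rw [hEE, Nat.factorization_mul (mul_ne_zero hF0 hr) hA, Nat.factorization_mul hF0 hr]
    rfl
  have hEs : E.factorization p < s := by
    by_contra hcon
    push Not at hcon
    have k1 : p ^ (E.factorization p) ∣ E := Nat.ordProj_dvd E p
    have k2 := Nat.le_of_dvd (Nat.pos_of_ne_zero hE0) k1
    have k3 : 2 ^ s ≤ p ^ (E.factorization p) :=
      (Nat.pow_le_pow_right (by norm_num) hcon).trans (Nat.pow_le_pow_left hp.out.two_le _)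
    rw [← hEE] at hE
    omega
  rw [← hEE]
  rcases hab with hab | hab
  · obtain ⟨t, i, k1, k2⟩ := val_core s (2 * β * γ) a hF0 ha Da (u / m) na hab ea
    have ht : 0 ≤ t := by
      by_contra hcon
      push Not at hcon
      have : (s : ℤ) * t ≤ -s := by nlinarith
      omega
    refine ⟨t.toNat, i, 0, ?_, by omega, by omega⟩
    have k3 : ((t.toNat : ℕ) : ℤ) = t := Int.toNat_of_nonneg ht
    have : ((a.factorization p + 0 : ℕ) : ℤ) = ((s * t.toNat + i : ℕ) : ℤ) := by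
      push_cast
      rw [k3, k1]
      ring
    exact_mod_cast this
  · obtain ⟨t, i, k1, k2⟩ := val_core s (2 * β * γ) b hF0 hb Db (v / m) nb hab eb
    have hv := congrArg (fun n : ℕ => n.factorization p) habc
    rw [Nat.factorization_mul (mul_ne_zero hr (mul_ne_zero ha hb)) (pow_ne_zero s hc2),
      Nat.factorization_mul hr (mul_ne_zero ha hb), Nat.factorization_mul ha hb,
      Nat.factorization_mul hA (pow_ne_zero s hc1), Nat.factorization_pow,
      Nat.factorization_pow] at hv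
    simp only [Finsupp.add_apply, Finsupp.smul_apply, smul_eq_mul] at hv
    have hv' : (r.factorization p : ℤ) + (a.factorization p + b.factorization p) +
        s * c2.factorization p = A.factorization p + s * c1.factorization p := by
      exact_mod_cast hv
    obtain ⟨K, hK⟩ : ∃ K : ℤ, K = c1.factorization p - c2.factorization p - t := ⟨_, rfl⟩
    have hmain : (a.factorization p : ℤ) + (r.factorization p + i) = s * K + A.factorization p := by
      rw [hK]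
      linear_combination hv' - k1
    have ht : 0 ≤ K := by
      by_contra hcon
      push Not at hcon
      have : (s : ℤ) * K ≤ -s := by nlinarith
      omega
    refine ⟨K.toNat, A.factorization p, r.factorization p + i, ?_, by omega, by omega⟩
    have k3 : ((K.toNat : ℕ) : ℤ) = K := Int.toNat_of_nonneg ht
    have : ((a.factorization p + (r.factorization p + i) : ℕ) : ℤ) =
        ((s * K.toNat + A.factorization p : ℕ) : ℤ) := by
      push_cast
      rw [k3]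
      exact hmain
    exact_mod_cast this

end

end Pool.Agent.H326.CS
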