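import Pool.Agent.H326.CS.E
import Pool.Agent.H326.CS.F
import Pool.Agent.H326.CS.G

/-!
The twists of the covering of `A x^(2s) + B y^(2s) = C z^(2s)` given by the two factors.
-/

set_option autoImplicit false

namespace Pool.Agent.H326.CS

open Finset Pool.Agent.H573.AHB Pool.Agent.H326.KQ

section
variable {s q M A B C r β γ : ℕ}

/-- **points of the covering modulo an auxiliary prime** -/
theorem modq (hq : q.Prime) (hs : s.Prime) (hs2 : 2 < s) (hsq : s ∣ q - 1) (hMs : M ≤ s)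
    (hbd : ¬ BD M q ((q - 1) / s)) (hA : 1 ≤ A) (hB : 1 ≤ B) (hC : 1 ≤ C) (hAM : A ≤ M)
    (hBM : B ≤ M) (hCM : C ≤ M) (hr : 1 ≤ r) (hβ : 1 ≤ β) (hγ : 1 ≤ γ)
    (hBr : B = r * β ^ 2) (hCr : C = r * γ ^ 2) (hAB : A ≠ B) (hAC : A ≠ C) (hBC : B ≠ C)
    (h1 : A + B ≠ C) (h2 : A + C ≠ B) {a b c d : ℕ} (a1 : 1 ≤ a) (b1 : 1 ≤ b) (c1 : 1 ≤ c)
    (d1 : 1 ≤ d) (a2 : a ≤ 2 * M ^ 2) (b2 : b ≤ 2 * M ^ 2) (c2 : c ≤ 2 * M ^ 2)
    (d2 : d ≤ 2 * M ^ 2) (hMq : 2 * M ^ 2 < q) (X Y Z U V : ZMod q) (hYZ : Y ≠ 0 ∨ Z ≠ 0)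
    (hc : (A : ZMod q) * X ^ s + (B : ZMod q) * (Y ^ s) ^ 2 = (C : ZMod q) * (Z ^ s) ^ 2)
    (hD1 : (b : ZMod q) * ((γ : ZMod q) * Z ^ s - (β : ZMod q) * Y ^ s) = (a : ZMod q) * U ^ s)
    (hD2 : (d : ZMod q) * ((γ : ZMod q) * Z ^ s + (β : ZMod q) * Y ^ s) = (c : ZMod q) * V ^ s) :
    False := by
  have hF : Fact q.Prime := ⟨hq⟩
  obtain ⟨hn, hev, hn1, hlt⟩ := aux_n hq hs hs2 hsq
  have hWN : ¬ WN M q ((q - 1) / s) := fun h => hbd (Or.inl h)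
  have hWT : ¬ WT M q ((q - 1) / s) := fun h => hbd (Or.inr h)
  have numq := @num s q M hWN
  obtain ⟨n, hnn⟩ : ∃ n, n = (q - 1) / s := ⟨_, rfl⟩
  rw [← hnn] at hn hev hn1 hWT numq
  have hs0 : s ≠ 0 := by omega
  have hA0 : (A : ZMod q) ≠ 0 := nat_ne (H := M) (by omega) hA hAM
  have hB0 : (B : ZMod q) ≠ 0 := nat_ne (H := M) (by omega) hB hBM
  have hC0 : (C : ZMod q) ≠ 0 := nat_ne (H := M) (by omega) hC hCM
  have ha0 : (a : ZMod q) ≠ 0 := nat_ne (H := 2 * M ^ 2) hMq a1 a2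
  have hb0 : (b : ZMod q) ≠ 0 := nat_ne (H := 2 * M ^ 2) hMq b1 b2
  have hc0 : (c : ZMod q) ≠ 0 := nat_ne (H := 2 * M ^ 2) hMq c1 c2
  have hd0 : (d : ZMod q) ≠ 0 := nat_ne (H := 2 * M ^ 2) hMq d1 d2
  have pn : ∀ w : ZMod q, w ≠ 0 → (w ^ s) ^ n = 1 := fun w hw => pw hq hn w hw
  have pn2 : ∀ w : ZMod q, w ≠ 0 → ((w ^ s) ^ 2) ^ n = 1 := fun w hw => by
    rw [← pow_mul, mul_comm 2 n, pow_mul, pn w hw, one_pow]
  have z2 : ∀ w : ZMod q, (w ^ s) ^ 2 = 0 → w = 0 := fun w hw =>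
    pow_eq_zero_iff hs0 |>.mp (pow_eq_zero_iff two_ne_zero |>.mp hw)
  have z1 : ∀ w : ZMod q, w ^ s = 0 → w = 0 := fun w hw => pow_eq_zero_iff hs0 |>.mp hw
  by_cases hX0 : X = 0
  · rw [hX0, zero_pow hs0, mul_zero, zero_add] at hc
    have hY0 : Y ≠ 0 := by
      intro h0
      rw [h0, zero_pow hs0, zero_pow two_ne_zero, mul_zero] at hc
      have := z2 _ ((mul_eq_zero.mp hc.symm).resolve_left hC0)
      rcases hYZ with h | h
      · exact h h0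
      · exact h this
    have hZ0 : Z ≠ 0 := by
      intro h0
      rw [h0, zero_pow hs0, zero_pow two_ne_zero, mul_zero] at hc
      exact hY0 (z2 _ ((mul_eq_zero.mp hc).resolve_left hB0))
    have h3 := congrArg (fun w => w ^ n) hc
    simp only [mul_pow (B : ZMod q), mul_pow (C : ZMod q)] at h3
    rw [pn2 Y hY0, pn2 Z hZ0, mul_one, mul_one] at h3
    exact hBC (numq hB hBM hC hCM h3)
  by_cases hY0 : Y = 0
  · have hZ0 : Z ≠ 0 := hYZ.resolve_left (fun h => h hY0)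
    rw [hY0, zero_pow hs0, zero_pow two_ne_zero, mul_zero, add_zero] at hc
    have h3 := congrArg (fun w => w ^ n) hc
    simp only [mul_pow (A : ZMod q), mul_pow (C : ZMod q)] at h3
    rw [pn X hX0, pn2 Z hZ0, mul_one, mul_one] at h3
    exact hAC (numq hA hAM hC hCM h3)
  by_cases hZ0 : Z = 0
  · rw [hZ0, zero_pow hs0, zero_pow two_ne_zero, mul_zero] at hc
    have hc' := eq_neg_of_add_eq_zero_left hc
    have h3 := congrArg (fun w => w ^ n) hc'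
    simp only [hev.neg_pow, mul_pow (A : ZMod q), mul_pow (B : ZMod q)] at h3
    rw [pn X hX0, pn2 Y hY0, mul_one, mul_one] at h3
    exact hAB (numq hA hAM hB hBM h3)
  have hYs : Y ^ s ≠ 0 := pow_ne_zero s hY0
  have hprod : (A : ZMod q) * X ^ s = (r : ZMod q) * (((γ : ZMod q) * Z ^ s - (β : ZMod q) * Y ^ s) *
      ((γ : ZMod q) * Z ^ s + (β : ZMod q) * Y ^ s)) := by
    have h5 : (A : ZMod q) * X ^ s = (C : ZMod q) * (Z ^ s) ^ 2 - (B : ZMod q) * (Y ^ s) ^ 2 := by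
      linear_combination hc
    rw [h5, hBr, hCr]
    push_cast
    ring
  have hAX : (A : ZMod q) * X ^ s ≠ 0 := mul_ne_zero hA0 (pow_ne_zero s hX0)
  have hU0 : U ≠ 0 := by
    intro h0
    rw [h0, zero_pow hs0, mul_zero] at hD1
    rw [(mul_eq_zero.mp hD1).resolve_left hb0, zero_mul, mul_zero] at hprod
    exact hAX hprod
  have hV0 : V ≠ 0 := by
    intro h0
    rw [h0, zero_pow hs0, mul_zero] at hD2
    rw [(mul_eq_zero.mp hD2).resolve_left hd0, mul_zero, mul_zero] at hprod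
    exact hAX hprod
  have hrM : r ≤ M := by
    refine le_trans ?_ hBM
    rw [hBr]
    exact Nat.le_mul_of_pos_right _ (Nat.one_le_pow _ _ hβ)
  have hβM : β ≤ M := by
    refine le_trans (Nat.le_self_pow two_ne_zero β) (le_trans ?_ hBM)
    rw [hBr]
    exact Nat.le_mul_of_pos_left _ hr
  have hγM : γ ≤ M := by
    refine le_trans (Nat.le_self_pow two_ne_zero γ) (le_trans ?_ hCM)
    rw [hCr]
    exact Nat.le_mul_of_pos_left _ hr
  have hM1 : 1 ≤ M := hA.trans hAM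
  have hM5 : M ≤ 4 * M ^ 5 :=
    (Nat.le_self_pow (by norm_num) M).trans (Nat.le_mul_of_pos_left _ (by norm_num))
  have hM25 : 2 * M ^ 2 ≤ 4 * M ^ 5 := by
    have : M ^ 2 ≤ M ^ 5 := Nat.pow_le_pow_right hM1 (by norm_num)
    omega
  obtain ⟨t, ht⟩ : ∃ t, t = Z ^ s / Y ^ s := ⟨_, rfl⟩
  have ht2 : t ^ 2 = 1 := by
    by_contra htne
    apply hWT
    refine ⟨![β, γ, a, b, c, d], ?_, t, htne, ?_, ?_, ?_⟩
    · rw [Fintype.mem_piFinset]
      intro i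
      rw [mem_Icc]
      fin_cases i
      · exact ⟨hβ, hβM.trans hM5⟩
      · exact ⟨hγ, hγM.trans hM5⟩
      · exact ⟨a1, a2.trans hM25⟩
      · exact ⟨b1, b2.trans hM25⟩
      · exact ⟨c1, c2.trans hM25⟩
      · exact ⟨d1, d2.trans hM25⟩
    · rw [ht, div_pow, pn Z hZ0, pn Y hY0, div_one]
    · have e : (b : ZMod q) * ((γ : ZMod q) * t - (β : ZMod q)) = (a : ZMod q) * (U ^ s / Y ^ s) := by
        rw [ht]
        field_simp
        linear_combination hD1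
      have e' : ((b : ZMod q) * ((γ : ZMod q) * t - (β : ZMod q))) ^ n = (a : ZMod q) ^ n := by
        rw [e, mul_pow, div_pow, pn U hU0, pn Y hY0, div_one, mul_one]
      exact e'
    · have e : (d : ZMod q) * ((γ : ZMod q) * t + (β : ZMod q)) = (c : ZMod q) * (V ^ s / Y ^ s) := by
        rw [ht]
        field_simp
        linear_combination hD2
      have e' : ((d : ZMod q) * ((γ : ZMod q) * t + (β : ZMod q))) ^ n = (c : ZMod q) ^ n := by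
        rw [e, mul_pow, div_pow, pn V hV0, pn Y hY0, div_one, mul_one]
      exact e'
  have hZY : (Z ^ s) ^ 2 = (Y ^ s) ^ 2 := by
    rw [ht, div_pow, div_eq_one_iff_eq (pow_ne_zero 2 hYs)] at ht2
    exact ht2
  have h3 : (A : ZMod q) * X ^ s = ((C : ZMod q) - (B : ZMod q)) * (Y ^ s) ^ 2 := by
    rw [hZY] at hc
    linear_combination hc
  have h4 := congrArg (fun w => w ^ n) h3
  simp only [mul_pow (A : ZMod q), mul_pow ((C : ZMod q) - (B : ZMod q))] at h4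
  rw [pn X hX0, pn2 Y hY0, mul_one, mul_one] at h4
  rcases lt_or_gt_of_ne hBC with hlt' | hgt
  · have e : ((C : ZMod q) - (B : ZMod q)) = ((C - B : ℕ) : ZMod q) := by
      rw [Nat.cast_sub hlt'.le]
    rw [e] at h4
    have := numq hA hAM (by omega) (by omega) h4
    omega
  · have e : ((C : ZMod q) - (B : ZMod q)) = -((B - C : ℕ) : ZMod q) := by
      rw [Nat.cast_sub hgt.le]
      ring
    rw [e, hev.neg_pow] at h4
    have := numq hA hAM (by omega) (by omega) h4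
    omega

lemma scale_x {K : Type*} [Field K] (s : ℕ) (m x y z a b c : K)
    (h0 : a * (x ^ 2) ^ s + b * (y ^ s) ^ 2 = c * (z ^ s) ^ 2) :
    a * ((x / m) ^ 2) ^ s + b * ((y / m) ^ s) ^ 2 = c * ((z / m) ^ s) ^ 2 := by
  have e1 : ((x / m) ^ 2) ^ s = (x ^ 2) ^ s / (m ^ s) ^ 2 := by
    rw [div_pow, div_pow, ← pow_mul m 2 s, ← pow_mul m s 2, mul_comm 2 s]
  have e2 : ((y / m) ^ s) ^ 2 = (y ^ s) ^ 2 / (m ^ s) ^ 2 := by rw [div_pow, div_pow]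
  have e3 : ((z / m) ^ s) ^ 2 = (z ^ s) ^ 2 / (m ^ s) ^ 2 := by rw [div_pow, div_pow]
  rw [e1, e2, e3, mul_div_assoc', mul_div_assoc', mul_div_assoc', ← add_div, h0]

/-- reduction modulo `q` of a local point -/
theorem reduce_q [hF : Fact q.Prime] (hs0 : s ≠ 0) {a b c d : ℕ} (hAq : ¬ q ∣ A) (haq : ¬ q ∣ a)
    (hcq : ¬ q ∣ c) (x y z U V : ℚ_[q]) (hyz : y ≠ 0 ∨ z ≠ 0)
    (h0 : (A : ℚ_[q]) * (x ^ 2) ^ s + (B : ℚ_[q]) * (y ^ s) ^ 2 = (C : ℚ_[q]) * (z ^ s) ^ 2)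
    (hD1 : (b : ℚ_[q]) * ((γ : ℚ_[q]) * z ^ s - (β : ℚ_[q]) * y ^ s) = (a : ℚ_[q]) * U ^ s)
    (hD2 : (d : ℚ_[q]) * ((γ : ℚ_[q]) * z ^ s + (β : ℚ_[q]) * y ^ s) = (c : ℚ_[q]) * V ^ s) :
    ∃ X' Y' Z' U' V' : ZMod q, (Y' ≠ 0 ∨ Z' ≠ 0) ∧
      (A : ZMod q) * X' ^ s + (B : ZMod q) * (Y' ^ s) ^ 2 = (C : ZMod q) * (Z' ^ s) ^ 2 ∧
      (b : ZMod q) * ((γ : ZMod q) * Z' ^ s - (β : ZMod q) * Y' ^ s) = (a : ZMod q) * U' ^ s ∧
      (d : ZMod q) * ((γ : ZMod q) * Z' ^ s + (β : ZMod q) * Y' ^ s) = (c : ZMod q) * V' ^ s := by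
  obtain ⟨m, hm, hy1, hz1, h1⟩ := normalise y z hyz
  have hms : m ^ s ≠ 0 := pow_ne_zero s hm
  have unit : ∀ k : ℕ, ¬ q ∣ k → ‖(k : ℚ_[q])‖ = 1 := by
    intro k hk
    rw [Padic.norm_natCast_eq_one_iff]
    exact (Nat.Prime.coprime_iff_not_dvd hF.out).mpr hk
  have root : ∀ (w W : ℚ_[q]) (k e : ℕ), e ≠ 0 → ¬ q ∣ k → (k : ℚ_[q]) * w ^ e = W → ‖W‖ ≤ 1 →
      ‖w‖ ≤ 1 := by
    intro w W k e he hk hkw hW
    rw [← hkw, norm_mul, unit k hk, one_mul, norm_pow] at hW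
    exact (pow_le_one_iff_of_nonneg (norm_nonneg _) he).mp hW
  obtain ⟨n1, n2⟩ := small_norm s β γ (y / m) (z / m) hy1 hz1
  have hx1 : ‖(x / m) ^ 2‖ ≤ 1 := by
    apply root ((x / m) ^ 2) ((C : ℚ_[q]) * ((z / m) ^ s) ^ 2 - (B : ℚ_[q]) * ((y / m) ^ s) ^ 2) A s
      hs0 hAq
    · linear_combination scale_x s m x y z _ _ _ h0
    · refine (norm_sub_max _ _).trans (max_le ?_ ?_)
      · rw [norm_mul, norm_pow, norm_pow]
        exact mul_le_one₀ (nat_norm_le C) (by positivity)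
          (pow_le_one₀ (by positivity) (pow_le_one₀ (norm_nonneg _) hz1))
      · rw [norm_mul, norm_pow, norm_pow]
        exact mul_le_one₀ (nat_norm_le B) (by positivity)
          (pow_le_one₀ (by positivity) (pow_le_one₀ (norm_nonneg _) hy1))
  have hU1 : ‖U / m‖ ≤ 1 := by
    apply root (U / m) ((b : ℚ_[q]) * ((γ : ℚ_[q]) * (z / m) ^ s - (β : ℚ_[q]) * (y / m) ^ s)) a s
      hs0 haq
    · simp only [div_pow]
      field_simp
      linear_combination -hD1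
    · rw [norm_mul]
      exact mul_le_one₀ (nat_norm_le b) (norm_nonneg _) n1
  have hV1 : ‖V / m‖ ≤ 1 := by
    apply root (V / m) ((d : ℚ_[q]) * ((γ : ℚ_[q]) * (z / m) ^ s + (β : ℚ_[q]) * (y / m) ^ s)) c s
      hs0 hcq
    · simp only [div_pow]
      field_simp
      linear_combination -hD2
    · rw [norm_mul]
      exact mul_le_one₀ (nat_norm_le d) (norm_nonneg _) n2
  obtain ⟨X0, hX0⟩ : ∃ w : ℤ_[q], (w : ℚ_[q]) = (x / m) ^ 2 := ⟨⟨_, hx1⟩, rfl⟩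
  obtain ⟨Y0, hY0⟩ : ∃ w : ℤ_[q], (w : ℚ_[q]) = y / m := ⟨⟨_, hy1⟩, rfl⟩
  obtain ⟨Z0, hZ0⟩ : ∃ w : ℤ_[q], (w : ℚ_[q]) = z / m := ⟨⟨_, hz1⟩, rfl⟩
  obtain ⟨U0, hU0⟩ : ∃ w : ℤ_[q], (w : ℚ_[q]) = U / m := ⟨⟨_, hU1⟩, rfl⟩
  obtain ⟨V0, hV0⟩ : ∃ w : ℤ_[q], (w : ℚ_[q]) = V / m := ⟨⟨_, hV1⟩, rfl⟩
  have r0 : (A : ℤ_[q]) * X0 ^ s + (B : ℤ_[q]) * (Y0 ^ s) ^ 2 = (C : ℤ_[q]) * (Z0 ^ s) ^ 2 := by
    apply PadicInt.ext
    push_cast
    rw [hX0, hY0, hZ0]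
    exact scale_x s m x y z _ _ _ h0
  have r1 : (b : ℤ_[q]) * ((γ : ℤ_[q]) * Z0 ^ s - (β : ℤ_[q]) * Y0 ^ s) = (a : ℤ_[q]) * U0 ^ s := by
    apply PadicInt.ext
    push_cast
    rw [hU0, hY0, hZ0]
    simp only [div_pow]
    field_simp
    linear_combination hD1
  have r2 : (d : ℤ_[q]) * ((γ : ℤ_[q]) * Z0 ^ s + (β : ℤ_[q]) * Y0 ^ s) = (c : ℤ_[q]) * V0 ^ s := by
    apply PadicInt.ext
    push_cast
    rw [hV0, hY0, hZ0]
    simp only [div_pow]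
    field_simp
    linear_combination hD2
  refine ⟨PadicInt.toZMod X0, PadicInt.toZMod Y0, PadicInt.toZMod Z0, PadicInt.toZMod U0,
    PadicInt.toZMod V0, ?_, ?_, ?_, ?_⟩
  · rcases h1 with h1 | h1
    · left
      have : Y0 = 1 := by
        apply PadicInt.ext
        rw [hY0, h1]
        rfl
      rw [this, map_one]
      exact one_ne_zero
    · right
      have : Z0 = 1 := by
        apply PadicInt.ext
        rw [hZ0, h1]
        rfl
      rw [this, map_one]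
      exact one_ne_zero
  · have := congrArg (PadicInt.toZMod (p := q)) r0
    simpa only [map_add, map_mul, map_pow, map_natCast] using this
  · have := congrArg (PadicInt.toZMod (p := q)) r1
    simpa only [map_sub, map_mul, map_pow, map_natCast] using this
  · have := congrArg (PadicInt.toZMod (p := q)) r2
    simpa only [map_add, map_mul, map_pow, map_natCast] using this

end

end Pool.Agent.H326.CS
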