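import Pool.Agent.H326.CS.H

/-!
The descent: no twist of the covering has points over all `ℚ_p`.
-/

set_option autoImplicit false

namespace Pool.Agent.H326.CS

open Finset Pool.Agent.H573.AHB

/-- a local point of a twist of the covering -/
def LP (p : ℕ) [Fact p.Prime] (s A B C β γ : ℕ) (a b : ℚ) : Prop :=
  ∃ x y z u v : ℚ_[p], (y ≠ 0 ∨ z ≠ 0) ∧
    (A : ℚ_[p]) * (x ^ 2) ^ s + (B : ℚ_[p]) * (y ^ s) ^ 2 = (C : ℚ_[p]) * (z ^ s) ^ 2 ∧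
    (γ : ℚ_[p]) * z ^ s - (β : ℚ_[p]) * y ^ s = (a : ℚ_[p]) * u ^ s ∧
    (γ : ℚ_[p]) * z ^ s + (β : ℚ_[p]) * y ^ s = (b : ℚ_[p]) * v ^ s

section
variable {s q M A B C r β γ : ℕ}

theorem descent (hq : q.Prime) (hs : s.Prime) (hs2 : 2 < s) (hsq : s ∣ q - 1)
    (hM8 : M ^ 8 ≤ s)
    (hbd : ¬ BD M q ((q - 1) / s)) (hA : 1 ≤ A) (hB : 1 ≤ B) (hC : 1 ≤ C) (hAM : A ≤ M)
    (hBM : B ≤ M) (hCM : C ≤ M) (hr : 1 ≤ r) (hβ : 1 ≤ β) (hγ : 1 ≤ γ)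
    (hBr : B = r * β ^ 2) (hCr : C = r * γ ^ 2) (hAB : A ≠ B) (hAC : A ≠ C) (hBC : B ≠ C)
    (h1 : A + B ≠ C) (h2 : A + C ≠ B) {a b c1 c2 : ℕ} (ha : a ≠ 0) (hb : b ≠ 0)
    (hc1 : c1 ≠ 0) (hc2 : c2 ≠ 0) (habc : r * (a * b) * c2 ^ s = A * c1 ^ s)
    (hloc : ∀ p : ℕ, ∀ hp : Fact p.Prime, LP p s A B C β γ a b) : False := by
  have hM1 : 1 ≤ M := hA.trans hAM
  have hMs : M ≤ s := (Nat.le_self_pow (by norm_num) M).trans hM8
  have hrβγ : r * β * γ ≤ M := by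
    have h3 : (r * β * γ) ^ 2 ≤ M ^ 2 := by
      calc (r * β * γ) ^ 2 = (r * β ^ 2) * (r * γ ^ 2) := by ring
        _ ≤ M * M := Nat.mul_le_mul (hBr ▸ hBM) (hCr ▸ hCM)
        _ = M ^ 2 := by ring
    exact (Nat.pow_le_pow_iff_left two_ne_zero).mp h3
  have hE2 : 2 * β * γ * r * A ≤ 2 * M ^ 2 := by
    calc 2 * β * γ * r * A = 2 * ((r * β * γ) * A) := by ring
      _ ≤ 2 * (M * M) := Nat.mul_le_mul_left _ (Nat.mul_le_mul hrβγ hAM)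
      _ = 2 * M ^ 2 := by ring
  have hM2s : 2 * M ^ 2 < s + 1 ∧ 2 * M ^ 2 < 2 ^ s := by
    rcases Nat.lt_or_ge M 2 with h | h
    · have hM : M = 1 := by omega
      rw [hM]
      have h8 : 2 ^ 3 ≤ 2 ^ s := Nat.pow_le_pow_right (by norm_num) (by omega)
      constructor
      · omega
      · omega
    · have h3 : 2 ^ 6 ≤ M ^ 6 := Nat.pow_le_pow_left h 6
      have h4 : M ^ 8 = M ^ 6 * M ^ 2 := by ring
      have h5 : 2 * M ^ 2 ≤ M ^ 6 * M ^ 2 := Nat.mul_le_mul_right _ (by omega)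
      have h6 : s < 2 ^ s := Nat.lt_two_pow_self
      omega
  have hMq : 2 * M ^ 2 < q := by
    have h3 : s ≤ q - 1 := Nat.le_of_dvd (by have := hq.two_le; omega) hsq
    omega
  have hE : 2 * β * γ * r * A < 2 ^ s := lt_of_le_of_lt hE2 hM2s.2
  have hE0 : 2 * β * γ * r * A ≠ 0 := by
    have h3 : β ≠ 0 := by omega
    have h4 : γ ≠ 0 := by omega
    have h5 : r ≠ 0 := by omega
    have h6 : A ≠ 0 := by omega
    exact mul_ne_zero (mul_ne_zero (mul_ne_zero (mul_ne_zero two_ne_zero h3) h4) h5) h6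
  have habc' : r * (b * a) * c2 ^ s = A * c1 ^ s := by rw [mul_comm b a]; exact habc
  obtain ⟨w, a1, b1, w0, a11, b11, a1E, b1E, hw⟩ := small_class s (2 * β * γ * r * A) a ha hE0 (by
    intro p hp
    have hpF : Fact p.Prime := ⟨hp⟩
    obtain ⟨x, y, z, u, v, hyz, -, e1, e2⟩ := hloc p hpF
    rw [Rat.cast_natCast] at e1 e2
    exact loc_val (p := p) s r A β γ a b c1 c2 (by omega) (by omega) (by omega) (by omega) ha hb hc1 hc2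
      hE habc y z u v hyz (Or.inl ⟨e1, e2⟩))
  obtain ⟨w', a2, b2, w0', a21, b21, a2E, b2E, hw'⟩ := small_class s (2 * β * γ * r * A) b hb hE0 (by
    intro p hp
    have hpF : Fact p.Prime := ⟨hp⟩
    obtain ⟨x, y, z, u, v, hyz, -, e1, e2⟩ := hloc p hpF
    rw [Rat.cast_natCast] at e1 e2
    exact loc_val (p := p) s r A β γ b a c1 c2 (by omega) (by omega) (by omega) (by omega) hb ha hc1 hc2
      hE habc' y z v u hyz (Or.inr ⟨e2, e1⟩))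
  have hEpos : 0 < 2 * β * γ * r * A := Nat.pos_of_ne_zero hE0
  have a1M : a1 ≤ 2 * M ^ 2 := (Nat.le_of_dvd hEpos a1E).trans hE2
  have b1M : b1 ≤ 2 * M ^ 2 := (Nat.le_of_dvd hEpos b1E).trans hE2
  have a2M : a2 ≤ 2 * M ^ 2 := (Nat.le_of_dvd hEpos a2E).trans hE2
  have b2M : b2 ≤ 2 * M ^ 2 := (Nat.le_of_dvd hEpos b2E).trans hE2
  have hqF : Fact q.Prime := ⟨hq⟩
  obtain ⟨x, y, z, u, v, hyz, e0, e1, e2⟩ := hloc q hqF
  rw [Rat.cast_natCast] at e1 e2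
  have nd : ∀ k : ℕ, 1 ≤ k → k < q → ¬ q ∣ k := fun k hk hkq hd => by
    have := Nat.le_of_dvd hk hd
    omega
  have hMM : M ≤ 2 * M ^ 2 := (Nat.le_self_pow two_ne_zero M).trans (Nat.le_mul_of_pos_left _ (by norm_num))
  have f1 : (b1 : ℚ_[q]) * ((γ : ℚ_[q]) * z ^ s - (β : ℚ_[q]) * y ^ s) =
      (a1 : ℚ_[q]) * ((w : ℚ_[q]) * u) ^ s := by
    have h3 : (b1 : ℚ_[q]) * (a : ℚ_[q]) = (a1 : ℚ_[q]) * (w : ℚ_[q]) ^ s := by exact_mod_cast hw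
    rw [e1, mul_pow, ← mul_assoc, ← mul_assoc, h3]
  have f2 : (b2 : ℚ_[q]) * ((γ : ℚ_[q]) * z ^ s + (β : ℚ_[q]) * y ^ s) =
      (a2 : ℚ_[q]) * ((w' : ℚ_[q]) * v) ^ s := by
    have h3 : (b2 : ℚ_[q]) * (b : ℚ_[q]) = (a2 : ℚ_[q]) * (w' : ℚ_[q]) ^ s := by exact_mod_cast hw'
    rw [e2, mul_pow, ← mul_assoc, ← mul_assoc, h3]
  obtain ⟨X', Y', Z', U', V', hYZ, g0, g1, g2⟩ := reduce_q (q := q) (A := A) (B := B) (C := C)
    (a := a1) (b := b1) (c := a2) (d := b2) (β := β) (γ := γ) hs.ne_zero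
    (nd A hA (by omega)) (nd a1 a11 (by omega)) (nd a2 a21 (by omega)) x y z ((w : ℚ_[q]) * u)
    ((w' : ℚ_[q]) * v) hyz e0 f1 f2
  exact modq hq hs hs2 hsq hMs hbd hA hB hC hAM hBM hCM hr hβ hγ hBr hCr hAB hAC hBC h1 h2
    a11 b11 a21 b21 a1M b1M a2M b2M hMq X' Y' Z' U' V' hYZ g0 g1 g2

lemma nat_rep_pos (s : ℕ) (hs : 0 < s) (a : ℚ) (ha : 0 < a) :
    ∃ n : ℕ, n ≠ 0 ∧ ∃ t : ℚ, t ≠ 0 ∧ a = n * t ^ s := by
  have hd : (a.den : ℚ) ≠ 0 := by exact_mod_cast a.den_nz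
  refine ⟨a.num.natAbs * a.den ^ (s - 1), ?_, (1 : ℚ) / a.den, ?_, ?_⟩
  · exact mul_ne_zero (Int.natAbs_ne_zero.mpr (Rat.num_ne_zero.mpr ha.ne'))
      (pow_ne_zero _ a.den_nz)
  · exact div_ne_zero one_ne_zero hd
  · have h1 : ((a.num.natAbs : ℕ) : ℚ) = a.num := by
      rw [Nat.cast_natAbs, abs_of_pos (Rat.num_pos.mpr ha)]
    have h3 : (a.den : ℚ) ^ s = a.den ^ (s - 1) * a.den := (pow_sub_one_mul hs.ne' _).symm
    have h4 : (a.den : ℚ) ^ (s - 1) ≠ 0 := pow_ne_zero _ hd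
    rw [Nat.cast_mul, Nat.cast_pow, h1, div_pow, one_pow, h3]
    have h2 : a * a.den = a.num := Rat.mul_den_eq_num a
    rw [mul_one_div, eq_div_iff (mul_ne_zero h4 hd)]
    linear_combination (a.den : ℚ) ^ (s - 1) * h2

lemma nat_rep (s : ℕ) (hs : Odd s) (a : ℚ) (ha : a ≠ 0) :
    ∃ n : ℕ, n ≠ 0 ∧ ∃ t : ℚ, t ≠ 0 ∧ a = n * t ^ s := by
  rcases lt_or_gt_of_ne ha with h | h
  · obtain ⟨n, hn, t, ht, e⟩ := nat_rep_pos s hs.pos (-a) (by linarith)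
    refine ⟨n, hn, -t, neg_ne_zero.mpr ht, ?_⟩
    rw [hs.neg_pow]
    linarith
  · exact nat_rep_pos s hs.pos a h

/-- **the descent** -/
theorem descent_q (hq : q.Prime) (hs : s.Prime) (hs2 : 2 < s) (hsq : s ∣ q - 1)
    (hM8 : M ^ 8 ≤ s)
    (hbd : ¬ BD M q ((q - 1) / s)) (hA : 1 ≤ A) (hB : 1 ≤ B) (hC : 1 ≤ C) (hAM : A ≤ M)
    (hBM : B ≤ M) (hCM : C ≤ M) (hr : 1 ≤ r) (hβ : 1 ≤ β) (hγ : 1 ≤ γ)
    (hBr : B = r * β ^ 2) (hCr : C = r * γ ^ 2) (hAB : A ≠ B) (hAC : A ≠ C) (hBC : B ≠ C)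
    (h1 : A + B ≠ C) (h2 : A + C ≠ B) (a b c : ℚ) (ha : a ≠ 0) (hb : b ≠ 0)
    (hc : c ≠ 0) (habc : (r : ℚ) * (a * b) = A * c ^ s)
    (hloc : ∀ p : ℕ, ∀ hp : Fact p.Prime, LP p s A B C β γ a b) : False := by
  have hodd : Odd s := hs.odd_of_ne_two (by omega)
  obtain ⟨n, hn, t, ht, e⟩ := nat_rep s hodd a ha
  obtain ⟨n', hn', t', ht', e'⟩ := nat_rep s hodd b hb
  obtain ⟨c', hc'⟩ : ∃ c', c' = c / (t * t') := ⟨_, rfl⟩
  have hcc : c = c' * (t * t') := by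
    rw [hc', div_mul_cancel₀ _ (mul_ne_zero ht ht')]
  have hc0 : c' ≠ 0 := by
    rw [hc']
    exact div_ne_zero hc (mul_ne_zero ht ht')
  have hts : (t * t') ^ s ≠ 0 := pow_ne_zero s (mul_ne_zero ht ht')
  have k1 : (r : ℚ) * (n * n') = A * c' ^ s := by
    apply mul_right_cancel₀ hts
    rw [hcc, e, e', mul_pow c'] at habc
    rw [mul_pow] at habc ⊢
    linear_combination habc
  have hcpos : 0 < c' := by
    by_contra hneg
    have h3 : c' ^ s ≤ 0 := by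
      rcases lt_or_eq_of_le (not_lt.mp hneg) with h | h
      · exact (hodd.pow_neg h).le
      · exact absurd h hc0
    have h4 : (0 : ℚ) < (r : ℚ) * (n * n') := by
      have h5 : (0 : ℚ) < r := by exact_mod_cast hr
      have h6 : (0 : ℚ) < n := by exact_mod_cast Nat.pos_of_ne_zero hn
      have h7 : (0 : ℚ) < n' := by exact_mod_cast Nat.pos_of_ne_zero hn'
      positivity
    have h8 : (0 : ℚ) ≤ A := Nat.cast_nonneg A
    rw [k1] at h4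
    nlinarith
  have hd : (c'.den : ℚ) ≠ 0 := by exact_mod_cast c'.den_nz
  have k2 : r * (n * n') * c'.den ^ s = A * c'.num.natAbs ^ s := by
    have h3 : ((c'.num.natAbs : ℕ) : ℚ) = c'.num := by
      rw [Nat.cast_natAbs, abs_of_pos (Rat.num_pos.mpr hcpos)]
    have h4 : c' * c'.den = c'.num := Rat.mul_den_eq_num c'
    have h5 : ((r * (n * n') * c'.den ^ s : ℕ) : ℚ) = ((A * c'.num.natAbs ^ s : ℕ) : ℚ) := by
      push_cast
      rw [h3, ← h4, k1, mul_pow]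
      ring
    exact_mod_cast h5
  refine descent hq hs hs2 hsq hM8 hbd hA hB hC hAM hBM hCM hr hβ hγ hBr hCr hAB hAC hBC h1 h2
    hn hn' (Int.natAbs_ne_zero.mpr (Rat.num_ne_zero.mpr hc0)) c'.den_nz k2 ?_
  intro p hp
  obtain ⟨x, y, z, u, v, hyz, e0, e1, e2⟩ := hloc p hp
  refine ⟨x, y, z, (t : ℚ_[p]) * u, (t' : ℚ_[p]) * v, hyz, e0, ?_, ?_⟩
  · rw [e1, e, mul_pow, Rat.cast_mul, Rat.cast_pow]
    ring
  · rw [e2, e', mul_pow, Rat.cast_mul, Rat.cast_pow]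
    ring

end

end Pool.Agent.H326.CS
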